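import Pool.Agent.H38.UE.Final

/-!
# The correlations of the law
-/

set_option autoImplicit false

open Finset Filter Topology

namespace Pool.Agent.H38.UE

open Pool.Agent.H38.RB Pool.Agent.H38.PS Pool.Agent.H38.AE.Statement Pool.Agent.H82.AS

theorem rad_dvd (m : ℤ) (hm : m ≠ 0) (N : ℕ) (hN : 1 ≤ N) :
    radical m ∣ N ↔ ∀ p : ℕ, p.Prime → (p : ℤ) ∣ m → p ∣ N := by
  unfold radical
  rw [Nat.prod_primeFactors_dvd_iff (by omega)]
  constructor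
  · intro h p hp hd
    have h1 : p ∈ m.natAbs.primeFactors := by
      rw [Nat.mem_primeFactors]
      exact ⟨hp, Int.natCast_dvd.mp hd, by rwa [Int.natAbs_ne_zero]⟩
    exact (Nat.mem_primeFactors.mp (h h1)).2.1
  · intro h p hp
    rw [Nat.mem_primeFactors] at hp ⊢
    exact ⟨hp.1, h p hp.1 (Int.natCast_dvd.mpr hp.2.1), by omega⟩

theorem corr (w : Set (Fin 3 → ℤ) → ℝ) (C : ℝ)
    (hlaw : ∀ (𝒮 : Set (Set (Fin 3 → ℤ))) (X : ℝ), 1 ≤ X →
        |(Count 𝒮 X : ℝ) - X * ∑' S, 𝒮.indicator w S| ≤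
          C * X * Real.exp (-(1 / 3 * Real.sqrt (Real.log X))))
    (F : Finset (Fin 3 → ℤ)) (hF : ∀ x ∈ F, Admissible x) :
    ∑' S, ({S : Set (Fin 3 → ℤ) | ↑F ⊆ S}).indicator w S =
      1 / (radical (∏ x ∈ F, ∏ i, x i) : ℝ) := by
  classical
  set m : ℤ := ∏ x ∈ F, ∏ i, x i with hm
  have hm0 : m ≠ 0 := by
    rw [hm, Finset.prod_ne_zero_iff]
    intro x hx
    rw [Finset.prod_ne_zero_iff]
    intro i _
    exact (hF x hx).1 i
  set L : ℕ := radical m with hL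
  have hL0 : 0 < L := by
    rw [hL]
    unfold radical
    exact Finset.prod_pos (fun p hp => (Nat.prime_of_mem_primeFactors hp).pos)
  have hL0r : (0 : ℝ) < L := by exact_mod_cast hL0
  set W : ℝ := ∑' S, ({S : Set (Fin 3 → ℤ) | ↑F ⊆ S}).indicator w S with hW
  have hsub : ∀ N : ℕ, 1 ≤ N → (Solutions N ∈ {S : Set (Fin 3 → ℤ) | ↑F ⊆ S} ↔ L ∣ N) := by
    intro N hN
    rw [hL, rad_dvd m hm0 N hN]
    constructor
    · intro h p hp hd
      rw [hm] at hd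
      obtain ⟨x, hx, hd'⟩ := (Nat.prime_iff_prime_int.mp hp).exists_mem_finset_dvd hd
      exact (h hx).2 p hp hd'
    · intro h x hx
      refine ⟨hF x hx, fun p hp hd => h p hp ?_⟩
      rw [hm]
      exact hd.trans (Finset.dvd_prod_of_mem _ hx)
  have hcount : ∀ n : ℕ, Count {S : Set (Fin 3 → ℤ) | ↑F ⊆ S} (n : ℝ) = n / L := by
    intro n
    unfold Count
    have e : {N : ℕ | 1 ≤ N ∧ (N : ℝ) ≤ (n : ℝ) ∧
        Solutions N ∈ {S : Set (Fin 3 → ℤ) | ↑F ⊆ S}} =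
        (((Finset.Ioc 0 n).filter (fun N => L ∣ N) : Finset ℕ) : Set ℕ) := by
      ext N
      simp only [Finset.coe_filter, Set.mem_ofPred_eq, Finset.mem_Ioc, Nat.cast_le]
      constructor
      · rintro ⟨h1, h2, h3⟩
        exact ⟨⟨h1, h2⟩, (hsub N h1).mp h3⟩
      · rintro ⟨⟨h1, h2⟩, h3⟩
        exact ⟨h1, h2, (hsub N h1).mpr h3⟩
    rw [e, Set.ncard_coe_finset, Nat.Ioc_filter_dvd_card_eq_div]
  have h1 : Tendsto (fun n : ℕ => ((n / L : ℕ) : ℝ) / n) atTop (𝓝 W) := by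
    have h2 : Tendsto (fun n : ℕ => C * Real.exp (-(1 / 3 * Real.sqrt (Real.log (n : ℝ)))))
        atTop (𝓝 0) := by
      have h3 : Tendsto (fun n : ℕ => 1 / 3 * Real.sqrt (Real.log (n : ℝ))) atTop atTop :=
        (Real.tendsto_sqrt_atTop.comp
          (Real.tendsto_log_atTop.comp tendsto_natCast_atTop_atTop)).const_mul_atTop (by norm_num)
      have h4 := Real.tendsto_exp_neg_atTop_nhds_zero.comp h3
      simpa using h4.const_mul C
    rw [tendsto_iff_dist_tendsto_zero]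
    refine squeeze_zero' (Eventually.of_forall (fun n => dist_nonneg)) ?_ h2
    filter_upwards [eventually_ge_atTop 1] with n hn
    have hn2 : (1 : ℝ) ≤ n := by exact_mod_cast hn
    have hn0 : (0 : ℝ) < n := by linarith
    have h4 := hlaw {S : Set (Fin 3 → ℤ) | ↑F ⊆ S} n hn2
    rw [hcount n, ← hW] at h4
    rw [Real.dist_eq]
    have e : ((n / L : ℕ) : ℝ) / n - W = (((n / L : ℕ) : ℝ) - n * W) / n := by field_simp
    rw [e, abs_div, abs_of_pos hn0, div_le_iff₀ hn0]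
    linarith
  have h2 : Tendsto (fun n : ℕ => ((n / L : ℕ) : ℝ) / n) atTop (𝓝 (1 / (L : ℝ))) := by
    have h3 : Tendsto (fun n : ℕ => (1 : ℝ) / n) atTop (𝓝 0) := tendsto_one_div_atTop_nhds_zero_nat
    rw [tendsto_iff_dist_tendsto_zero]
    refine squeeze_zero' (Eventually.of_forall (fun n => dist_nonneg)) ?_ h3
    filter_upwards [eventually_ge_atTop 1] with n hn
    have hn1 : (1 : ℝ) ≤ n := by exact_mod_cast hn
    have hn0 : (0 : ℝ) < n := by linarith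
    rw [Real.dist_eq]
    have h4 : ((n / L : ℕ) : ℝ) ≤ n / L := Nat.cast_div_le
    have h5 : (n : ℝ) / L ≤ ((n / L : ℕ) : ℝ) + 1 := by
      have h6 : (n / L : ℕ) = ⌊(n : ℝ) / L⌋₊ := by
        rw [Nat.floor_div_natCast, Nat.floor_natCast]
      rw [h6]
      exact (Nat.lt_floor_add_one _).le
    have e : ((n / L : ℕ) : ℝ) / n - 1 / (L : ℝ) = (((n / L : ℕ) : ℝ) - n / L) / n := by
      field_simp
    rw [e, abs_div, abs_of_pos hn0]
    refine div_le_div_of_nonneg_right ?_ hn0.le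
    rw [abs_le]
    constructor <;> linarith
  exact tendsto_nhds_unique h1 h2

/-- the statement with the correlations -/
theorem final2 :
    (∀ N : ℕ, 1 ≤ N → (Solutions N).Finite) ∧
    ∃ w : Set (Fin 3 → ℤ) → ℝ, (∀ S, 0 ≤ w S) ∧ HasSum w 1 ∧
      (∀ F : Finset (Fin 3 → ℤ), (∀ x ∈ F, Admissible x) →
        ∑' S, ({S : Set (Fin 3 → ℤ) | ↑F ⊆ S}).indicator w S =
          1 / (radical (∏ x ∈ F, ∏ i, x i) : ℝ)) ∧
      (∃ C : ℝ, 0 < C ∧ ∀ (𝒮 : Set (Set (Fin 3 → ℤ))) (X : ℝ), 1 ≤ X →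
        |(Count 𝒮 X : ℝ) - X * ∑' S, 𝒮.indicator w S| ≤
          C * X * Real.exp (-(1 / 3 * Real.sqrt (Real.log X)))) ∧
      (∃ c C : ℝ, 0 < c ∧ 0 < C ∧ ∀ X : ℝ, 1 ≤ X →
        |∑ N ∈ Finset.Icc 1 ⌊X⌋₊, ((Solutions N).ncard : ℝ) - X * ∑' S, w S * (S.ncard : ℝ) -
          kappa * (riemannZeta ((2 / 3 : ℝ) : ℂ)).re * X ^ (2 / 3 : ℝ)| ≤ C * X ^ (2 / 3 - c)) ∧
      (∀ k : ℕ, 1 ≤ k → Summable (fun S => w S * (S.ncard : ℝ) ^ k) ∧
        ∀ ε : ℝ, 0 < ε → ∃ C : ℝ, 0 < C ∧ ∀ X : ℝ, 1 ≤ X →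
          |∑ N ∈ Finset.Icc 1 ⌊X⌋₊, ((Solutions N).ncard : ℝ) ^ k -
            X * ∑' S, w S * (S.ncard : ℝ) ^ k| ≤ C * X ^ (1 - 1 / (2 * k + 1) + ε : ℝ)) ∧
      (∃ C : ℝ, 0 < C ∧ ∀ X Y : ℝ, 1 ≤ X → 1 ≤ Y →
        (Count {S | ∃ x ∈ S, Y ≤ (radical (∏ i, x i) : ℝ)} X : ℝ) ≤
          C * X * Y ^ (-(1 / 3) : ℝ)) := by
  obtain ⟨h1, w, h2, h3, h4, h5, h6, h7⟩ := final
  refine ⟨h1, w, h2, h3, ?_, h4, h5, h6, h7⟩
  obtain ⟨C, hC, hlaw⟩ := h4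
  exact fun F hF => corr w C hlaw F hF

end Pool.Agent.H38.UE
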