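import Mathlib
import Pool.Agent.H38.AE.Statement

/-!
# The unit equation on average: definitions of the statement
-/

set_option autoImplicit false

namespace Pool.Agent.H38.UE

open Pool.Agent.H38.AE.Statement

/-- The admissible triples whose entries have no prime divisor which does not divide `N`. -/
def Solutions (N : ℕ) : Set (Fin 3 → ℤ) :=
  {x | Admissible x ∧ ∀ p : ℕ, p.Prime → (p : ℤ) ∣ ∏ i, x i → p ∣ N}

/-- The number of the `N ≤ X` for which the set of solutions belongs to `𝒮`. -/
noncomputable def Count (𝒮 : Set (Set (Fin 3 → ℤ))) (X : ℝ) : ℕ :=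
  {N : ℕ | 1 ≤ N ∧ (N : ℝ) ≤ X ∧ Solutions N ∈ 𝒮}.ncard

end Pool.Agent.H38.UE
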