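import Pool.Agent.H38.UE.Inst
import Pool.Agent.H38.UE.Stmt

/-!
# The unit equation on average
-/

set_option autoImplicit false

open Finset Filter Topology

namespace Pool.Agent.H38.UE

open Pool.Agent.H38.RB Pool.Agent.H38.PS Pool.Agent.H38.AE.Statement Pool.Agent.H82.AS

theorem adm_iff' (x : Fin 3 → ℤ) : Admissible x ↔ Adm x := by
  unfold Admissible Adm
  rw [Fin.sum_univ_three]

theorem sol_eq (N : ℕ) (hN : 1 ≤ N) : Solutions N = Subtype.val '' (EE rd N) := by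
  ext x
  have hdvd : ∀ h : Adm x, (∀ p : ℕ, p.Prime → (p : ℤ) ∣ ∏ i, x i → p ∣ N) ↔
      pd (pr x).primeFactors ∣ N := by
    intro h
    have h0 : pr x ≠ 0 := pr_ne ⟨x, h⟩
    have hp : ∀ p : ℕ, (p : ℤ) ∣ ∏ i, x i ↔ p ∣ pr x := by
      intro p
      rw [Fin.prod_univ_three]
      exact Int.natCast_dvd
    constructor
    · intro h1
      unfold pd
      rw [Nat.prod_primeFactors_dvd_iff (by omega)]
      intro p hp'
      rw [Nat.mem_primeFactors] at hp' ⊢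
      exact ⟨hp'.1, h1 p hp'.1 ((hp p).mpr hp'.2.1), by omega⟩
    · intro h1 p hpp hd
      rw [hp] at hd
      have h2 : p ∈ (pr x).primeFactors := by
        rw [Nat.mem_primeFactors]
        exact ⟨hpp, hd, h0⟩
      exact (Finset.dvd_prod_of_mem (fun p => p) h2).trans h1
  constructor
  · rintro ⟨h1, h2⟩
    have h3 := (adm_iff' x).mp h1
    exact ⟨⟨x, h3⟩, (hdvd h3).mp h2, rfl⟩
  · rintro ⟨y, hy, rfl⟩
    exact ⟨(adm_iff' _).mpr y.2, (hdvd y.2).mpr hy⟩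

theorem count_eq (𝒮 : Set (Set (Fin 3 → ℤ))) (X : ℝ) (hX : 0 ≤ X) :
    (Count 𝒮 X : ℝ) = cn rd ((fun S : Set Tri => Subtype.val '' S) ⁻¹' 𝒮) X := by
  classical
  unfold Count cn
  have h1 : {N : ℕ | 1 ≤ N ∧ (N : ℝ) ≤ X ∧ Solutions N ∈ 𝒮} =
      (((Finset.Icc 1 ⌊X⌋₊).filter (fun N => Solutions N ∈ 𝒮) : Finset ℕ) : Set ℕ) := by
    ext N
    rw [Finset.coe_filter, Set.mem_ofPred_eq, Set.mem_ofPred_eq, Finset.mem_Icc,
      Nat.le_floor_iff hX]
    tauto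
  rw [h1, Set.ncard_coe_finset, Finset.card_filter]
  push_cast
  rw [Finset.range_eq_Ico, Finset.sum_Ico_add' (fun n => if EE rd n ∈
    (fun S : Set Tri => Subtype.val '' S) ⁻¹' 𝒮 then (1 : ℝ) else 0) 0 ⌊X⌋₊ 1]
  refine Finset.sum_congr (by rfl) (fun N hN => ?_)
  have hN1 : 1 ≤ N := by
    rw [Finset.mem_Ico] at hN
    omega
  rw [sol_eq N hN1]
  rfl

/-- the statement -/
theorem final :
    (∀ N : ℕ, 1 ≤ N → (Solutions N).Finite) ∧
    ∃ w : Set (Fin 3 → ℤ) → ℝ, (∀ S, 0 ≤ w S) ∧ HasSum w 1 ∧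
      (∃ C : ℝ, 0 < C ∧ ∀ (𝒮 : Set (Set (Fin 3 → ℤ))) (X : ℝ), 1 ≤ X →
        |(Count 𝒮 X : ℝ) - X * ∑' S, 𝒮.indicator w S| ≤
          C * X * Real.exp (-(1 / 3 * Real.sqrt (Real.log X)))) ∧
      (∃ c C : ℝ, 0 < c ∧ 0 < C ∧ ∀ X : ℝ, 1 ≤ X →
        |∑ N ∈ Finset.Icc 1 ⌊X⌋₊, ((Solutions N).ncard : ℝ) - X * ∑' S, w S * (S.ncard : ℝ) -
          kappa * (riemannZeta ((2 / 3 : ℝ) : ℂ)).re * X ^ (2 / 3 : ℝ)| ≤ C * X ^ (2 / 3 - c)) ∧
      (∀ k : ℕ, 1 ≤ k → Summable (fun S => w S * (S.ncard : ℝ) ^ k) ∧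
        ∀ ε : ℝ, 0 < ε → ∃ C : ℝ, 0 < C ∧ ∀ X : ℝ, 1 ≤ X →
          |∑ N ∈ Finset.Icc 1 ⌊X⌋₊, ((Solutions N).ncard : ℝ) ^ k -
            X * ∑' S, w S * (S.ncard : ℝ) ^ k| ≤ C * X ^ (1 - 1 / (2 * k + 1) + ε : ℝ)) ∧
      (∃ C : ℝ, 0 < C ∧ ∀ X Y : ℝ, 1 ≤ X → 1 ≤ Y →
        (Count {S | ∃ x ∈ S, Y ≤ (radical (∏ i, x i) : ℝ)} X : ℝ) ≤
          C * X * Y ^ (-(1 / 3) : ℝ)) := by
  classical
  obtain ⟨C₀, hC₀, hT⟩ := thin_rd
  obtain ⟨w, hw0, hw1, D, hD, hlaw⟩ := law rd rd_sq C₀ (1 / 3) hC₀ (by norm_num) (by norm_num) hT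
  have hinj : Function.Injective (fun S : Set Tri => Subtype.val '' S) :=
    Set.image_injective.mpr Subtype.val_injective
  have hncard : ∀ S : Set Tri, (Subtype.val '' S).ncard = S.ncard := fun S =>
    Set.ncard_image_of_injective _ Subtype.val_injective
  refine ⟨?_, ?_⟩
  · intro N hN
    rw [sol_eq N hN]
    refine Set.Finite.image _ ((hT (N : ℝ) (by exact_mod_cast hN)).1.subset (fun i hi => ?_))
    have h1 : rd i ≤ N := Nat.le_of_dvd hN hi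
    have h2 : (rd i : ℝ) ≤ (N : ℝ) := Nat.cast_le.mpr h1
    exact h2
  set g : Set Tri → Set (Fin 3 → ℤ) := fun S => Subtype.val '' S with hg
  have hmom := fun k hk => moments rd rd_pos C₀ (1 / 3) hC₀ (by norm_num) (by norm_num) hT few_rd
    k hk
  have htl : ∀ 𝒮 : Set (Set Tri), Tendsto (fun n : ℕ => cn rd 𝒮 (n : ℝ) / n) atTop
      (𝓝 (∑' S, 𝒮.indicator w S)) := fun 𝒮 =>
    tend_law rd 𝒮 _ D (1 / 3) (by norm_num) (fun X hX => hlaw 𝒮 X hX)
  have htm : ∀ k : ℕ, 1 ≤ k → Tendsto (fun n : ℕ =>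
      (∑ N ∈ Finset.range n, ((EE rd (N + 1)).ncard : ℝ) ^ k) / n) atTop
      (𝓝 (∑' f : Fin k → Tri, ((lc rd f : ℕ) : ℝ)⁻¹)) := by
    intro k hk
    have hk0 : (0 : ℝ) < k := by exact_mod_cast hk
    set θ : ℝ := 1 / 3 / (k * (1 - 1 / 3) + 1 / 3) with hθ
    have hθ0 : 0 < θ := by positivity
    obtain ⟨-, D', hD', h⟩ := hmom k hk (θ / 2) (by positivity)
    rw [← hθ] at h
    exact tend_mean (fun N => ((EE rd N).ncard : ℝ) ^ k) _ D' (θ - θ / 2) (by linarith) h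
  have hM : ∀ k : ℕ, 1 ≤ k → HasSum (fun S : Set Tri => w S * (S.ncard : ℝ) ^ k)
      (∑' f : Fin k → Tri, ((lc rd f : ℕ) : ℝ)⁻¹) := fun k hk =>
    moment_eq rd w hw0 hw1.summable htl k _ _ (htm k hk) (htm (k + 1) (by omega))
  have hext : ∀ k : ℕ, (fun S : Set (Fin 3 → ℤ) => Function.extend g w 0 S * (S.ncard : ℝ) ^ k) =
      Function.extend g (fun S => w S * (S.ncard : ℝ) ^ k) 0 := by
    intro k
    funext S
    by_cases h : ∃ T, g T = S
    · obtain ⟨T, rfl⟩ := h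
      rw [hinj.extend_apply, hinj.extend_apply, hg]
      simp only [hncard]
    · rw [Function.extend_apply' _ _ _ h, Function.extend_apply' _ _ _ h]
      simp
  have hM' : ∀ k : ℕ, 1 ≤ k → HasSum (fun S : Set (Fin 3 → ℤ) =>
      Function.extend g w 0 S * (S.ncard : ℝ) ^ k)
      (∑' f : Fin k → Tri, ((lc rd f : ℕ) : ℝ)⁻¹) := by
    intro k hk
    rw [hext k]
    exact (hasSum_extend_zero hinj).mpr (hM k hk)
  have hsols : ∀ (k : ℕ) (X : ℝ), ∑ N ∈ Finset.Icc 1 ⌊X⌋₊, ((Solutions N).ncard : ℝ) ^ k =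
      ∑ N ∈ Finset.Icc 1 ⌊X⌋₊, ({i | rd i ∣ N}.ncard : ℝ) ^ k := by
    intro k X
    refine Finset.sum_congr rfl (fun N hN => ?_)
    rw [Finset.mem_Icc] at hN
    rw [sol_eq N hN.1, hncard]
    rfl
  refine ⟨Function.extend g w 0, ?_, ?_, ?_, ?_, ?_, ?_⟩
  · intro S
    by_cases h : ∃ T, g T = S
    · obtain ⟨T, rfl⟩ := h
      rw [hinj.extend_apply]
      exact hw0 T
    · rw [Function.extend_apply' _ _ _ h]
      exact le_rfl
  · exact (hasSum_extend_zero hinj).mpr hw1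
  · refine ⟨D, hD, ?_⟩
    intro 𝒮 X hX
    rw [count_eq 𝒮 X (by linarith)]
    have h1 : 𝒮.indicator (Function.extend g w 0) =
        Function.extend g ((g ⁻¹' 𝒮).indicator w) 0 := by
      funext S
      by_cases h : ∃ T, g T = S
      · obtain ⟨T, rfl⟩ := h
        rw [hinj.extend_apply]
        by_cases h2 : g T ∈ 𝒮
        · rw [Set.indicator_of_mem h2, hinj.extend_apply, Set.indicator_of_mem (by exact h2)]
        · rw [Set.indicator_of_notMem h2, Set.indicator_of_notMem (by exact h2)]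
      · rw [Function.extend_apply' _ _ _ h]
        by_cases h2 : S ∈ 𝒮
        · rw [Set.indicator_of_mem h2, Function.extend_apply' _ _ _ h]
        · rw [Set.indicator_of_notMem h2]
          rfl
    rw [h1, tsum_extend_zero hinj]
    exact hlaw (g ⁻¹' 𝒮) X hX
  · obtain ⟨m, c, K, hc, hK, hf⟩ := first_moment
    refine ⟨c, K, hc, hK, ?_⟩
    have hs1 := hM' 1 le_rfl
    simp only [pow_one] at hs1
    have hsol1 := hsols 1
    simp only [pow_one] at hsol1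
    have hmm : m = ∑' f : Fin 1 → Tri, ((lc rd f : ℕ) : ℝ)⁻¹ := by
      have h1 := htm 1 le_rfl
      simp only [pow_one] at h1
      set κ' : ℝ := kappa * (riemannZeta ((2 / 3 : ℝ) : ℂ)).re with hκ'
      have h2 : Tendsto (fun n : ℕ => (∑ N ∈ Finset.range n, ((EE rd (N + 1)).ncard : ℝ)) / n)
          atTop (𝓝 m) := by
        refine tend_mean (fun N => ((EE rd N).ncard : ℝ)) m (K + |κ'|) (1 / 3) (by norm_num) ?_
        intro X hX
        have h3 := hf X hX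
        have e : (1 : ℝ) - 1 / 3 = 2 / 3 := by norm_num
        rw [e]
        have h4 : X ^ (2 / 3 - c) ≤ X ^ (2 / 3 : ℝ) :=
          Real.rpow_le_rpow_of_exponent_le hX (by linarith)
        have h5 : |κ' * X ^ (2 / 3 : ℝ)| = |κ'| * X ^ (2 / 3 : ℝ) := by
          rw [abs_mul, abs_of_nonneg (by positivity : (0 : ℝ) ≤ X ^ (2 / 3 : ℝ))]
        have h6 := abs_add_le (∑ N ∈ Finset.Icc 1 ⌊X⌋₊, ({x : Tri | rd x ∣ N}.ncard : ℝ) - X * m -
          κ' * X ^ (2 / 3 : ℝ)) (κ' * X ^ (2 / 3 : ℝ))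
        rw [sub_add_cancel, h5] at h6
        have h7 : K * X ^ (2 / 3 - c) ≤ K * X ^ (2 / 3 : ℝ) := mul_le_mul_of_nonneg_left h4 hK.le
        refine h6.trans ?_
        linarith
      exact tendsto_nhds_unique h2 h1
    intro X hX
    rw [hs1.tsum_eq, ← hmm, hsol1]
    exact hf X hX
  · intro k hk
    have h2 := hM' k hk
    refine ⟨h2.summable, ?_⟩
    intro ε hε
    rw [h2.tsum_eq]
    obtain ⟨-, D', hD', h⟩ := hmom k hk ε hε
    refine ⟨D', hD', ?_⟩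
    intro X hX
    have h3 := h X hX
    have hk0 : (0 : ℝ) < k := by exact_mod_cast hk
    have e2 : (1 - 1 / (2 * k + 1) + ε : ℝ) = 1 - (1 / 3 / (k * (1 - 1 / 3) + 1 / 3) - ε) := by
      have e3 : (k * (1 - 1 / 3) + 1 / 3 : ℝ) = (2 * k + 1) / 3 := by ring
      rw [e3]
      field_simp
      ring
    rw [hsols, e2]
    exact h3
  · obtain ⟨D', hD', hb⟩ := big rd C₀ (1 / 3) hC₀ (by norm_num) hT
    refine ⟨D', hD', ?_⟩
    intro X Y hX hY
    refine le_trans ?_ (hb Y X hY hX)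
    unfold Count
    rw [← Set.ncard_coe_finset]
    refine Nat.cast_le.mpr (Set.ncard_le_ncard ?_ (Finset.finite_toSet _))
    rintro N ⟨hN1, hN2, x, hx, hxY⟩
    rw [Finset.coe_filter, Set.mem_ofPred_eq, Finset.mem_Icc, Nat.le_floor_iff (by linarith)]
    rw [sol_eq N hN1] at hx
    obtain ⟨i, hi, rfl⟩ := hx
    refine ⟨⟨hN1, hN2⟩, i, ?_, hi⟩
    have e : radical (∏ j, i.1 j) = rd i := by
      unfold radical rd pd pr
      rw [Fin.prod_univ_three]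
    rw [← e]
    exact hxY

end Pool.Agent.H38.UE
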