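import Pool.Agent.H38.UE.ZetaR

/-!
# The second term of the mean value of a divisor sum
-/

set_option autoImplicit false

open Finset Filter Topology MeasureTheory

namespace Pool.Agent.H38.UE

/-- partial sums -/
noncomputable def PS (a : ℕ → ℝ) (x : ℝ) : ℝ := ∑ k ∈ Finset.Icc 0 ⌊x⌋₊, a k

theorem abel (a : ℕ → ℝ) (κ α c C : ℝ) (hα1 : α < 1) (hc : 0 < c) (hC : 0 < C)
    (h : ∀ x : ℝ, 1 ≤ x → |PS a x - κ * x ^ α| ≤ C * x ^ (α - c)) (y T : ℝ) (hy : 1 ≤ y)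
    (hyT : y ≤ T) :
    |∑ k ∈ Finset.Ioc ⌊y⌋₊ ⌊T⌋₊, (k : ℝ)⁻¹ * a k -
      κ * (α / (1 - α)) * (y ^ (α - 1) - T ^ (α - 1))| ≤
      C * (2 + 1 / (1 - α + c)) * y ^ (α - 1 - c) := by
  have hy0 : 0 < y := by linarith
  have hT0 : 0 < T := by linarith
  have hT1 : 1 ≤ T := by linarith
  have hcont : ContinuousOn (deriv (fun t : ℝ => t⁻¹)) (Set.Icc y T) := by
    rw [deriv_inv']
    refine ContinuousOn.neg (ContinuousOn.inv₀ (by fun_prop) ?_)
    intro t ht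
    have : 0 < t := by linarith [ht.1]
    positivity
  have hdiff : ∀ t ∈ Set.Icc y T, DifferentiableAt ℝ (fun t : ℝ => t⁻¹) t := by
    intro t ht
    have : 0 < t := by linarith [ht.1]
    exact differentiableAt_inv this.ne'
  have habel := sum_mul_eq_sub_sub_integral_mul a (f := fun t : ℝ => t⁻¹) hy0.le hyT hdiff
    hcont.integrableOn_Icc
  have hint := integrableOn_mul_sum_Icc a (m := 0) hy0.le (b := T) hcont.integrableOn_Icc
  rw [deriv_inv'] at habel hint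
  -- the integral
  have hint1 : IntervalIntegrable (fun t : ℝ => -(t ^ 2)⁻¹ * PS a t) volume y T := by
    rw [intervalIntegrable_iff_integrableOn_Ioc_of_le hyT]
    exact hint.mono_set Set.Ioc_subset_Icc_self
  have h0y : (0 : ℝ) ∉ Set.uIcc y T := by
    rw [Set.uIcc_of_le hyT]
    intro h0
    linarith [h0.1]
  have hint2 : IntervalIntegrable (fun t : ℝ => κ * t ^ (α - 2)) volume y T := by
    refine IntervalIntegrable.const_mul ?_ κ
    exact intervalIntegral.intervalIntegrable_rpow (Or.inr h0y)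
  have hint3 : IntervalIntegrable (fun t : ℝ => C * t ^ (α - c - 2)) volume y T := by
    refine IntervalIntegrable.const_mul ?_ C
    exact intervalIntegral.intervalIntegrable_rpow (Or.inr h0y)
  have hI : |(∫ t in y..T, (-(t ^ 2)⁻¹ * PS a t)) + ∫ t in y..T, κ * t ^ (α - 2)| ≤
      ∫ t in y..T, C * t ^ (α - c - 2) := by
    rw [← intervalIntegral.integral_add hint1 hint2, ← Real.norm_eq_abs]
    refine intervalIntegral.norm_integral_le_of_norm_le hyT ?_ hint3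
    refine Eventually.of_forall (fun t ht => ?_)
    have ht0 : 0 < t := by linarith [ht.1]
    have h1 := h t (by linarith [ht.1])
    have e1 : κ * t ^ (α - 2) = (t ^ 2)⁻¹ * (κ * t ^ α) := by
      have : t ^ (α - 2) = (t ^ 2)⁻¹ * t ^ α := by
        rw [Real.rpow_sub ht0, Real.rpow_two]
        field_simp
      rw [this]
      ring
    have e2 : C * t ^ (α - c - 2) = (t ^ 2)⁻¹ * (C * t ^ (α - c)) := by
      have : t ^ (α - c - 2) = (t ^ 2)⁻¹ * t ^ (α - c) := by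
        rw [Real.rpow_sub ht0, Real.rpow_two]
        field_simp
      rw [this]
      ring
    rw [e1, e2, Real.norm_eq_abs]
    have e3 : -(t ^ 2)⁻¹ * PS a t + (t ^ 2)⁻¹ * (κ * t ^ α) =
        -((t ^ 2)⁻¹ * (PS a t - κ * t ^ α)) := by ring
    rw [e3, abs_neg, abs_mul, abs_of_pos (by positivity : 0 < (t ^ 2)⁻¹)]
    exact mul_le_mul_of_nonneg_left h1 (by positivity)
  have hI2 : ∫ t in y..T, κ * t ^ (α - 2) = κ * ((y ^ (α - 1) - T ^ (α - 1)) / (1 - α)) := by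
    rw [intervalIntegral.integral_const_mul, integral_rpow (Or.inr ⟨by linarith, h0y⟩)]
    have e : α - 2 + 1 = -(1 - α) := by ring
    have e' : α - 1 = -(1 - α) := by ring
    rw [e, e', div_neg, ← neg_div]
    congr 2
    ring
  have hI3 : ∫ t in y..T, C * t ^ (α - c - 2) ≤ C * (1 / (1 - α + c)) * y ^ (α - 1 - c) := by
    rw [intervalIntegral.integral_const_mul, integral_rpow (Or.inr ⟨by linarith, h0y⟩)]
    have e : α - c - 2 + 1 = -(1 - α + c) := by ring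
    have e' : α - 1 - c = -(1 - α + c) := by ring
    have hp : 0 < 1 - α + c := by linarith
    rw [e, e', div_neg, ← neg_div]
    have hTp : 0 ≤ T ^ (-(1 - α + c)) := by positivity
    have h1 : -(T ^ (-(1 - α + c)) - y ^ (-(1 - α + c))) / (1 - α + c) ≤
        y ^ (-(1 - α + c)) / (1 - α + c) := by
      refine div_le_div_of_nonneg_right ?_ hp.le
      linarith
    calc C * (-(T ^ (-(1 - α + c)) - y ^ (-(1 - α + c))) / (1 - α + c))
        ≤ C * (y ^ (-(1 - α + c)) / (1 - α + c)) := mul_le_mul_of_nonneg_left h1 hC.le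
      _ = _ := by ring
  have hPS : ∀ t : ℝ, 1 ≤ t → |t⁻¹ * PS a t - κ * t ^ (α - 1)| ≤ C * t ^ (α - 1 - c) := by
    intro t ht
    have ht0 : 0 < t := by linarith
    have h1 := h t ht
    have e1 : t ^ (α - 1) = t⁻¹ * t ^ α := by
      rw [Real.rpow_sub ht0, Real.rpow_one]
      field_simp
    have e2 : t ^ (α - 1 - c) = t⁻¹ * t ^ (α - c) := by
      have : α - 1 - c = (α - c) - 1 := by ring
      rw [this, Real.rpow_sub ht0, Real.rpow_one]
      field_simp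
    rw [e1, e2]
    have e3 : t⁻¹ * PS a t - κ * (t⁻¹ * t ^ α) = t⁻¹ * (PS a t - κ * t ^ α) := by ring
    rw [e3, abs_mul, abs_of_pos (by positivity : 0 < t⁻¹)]
    calc t⁻¹ * |PS a t - κ * t ^ α| ≤ t⁻¹ * (C * t ^ (α - c)) :=
          mul_le_mul_of_nonneg_left h1 (by positivity)
      _ = _ := by ring
  have hPT := hPS T hT1
  have hPy := hPS y hy
  have hTy : T ^ (α - 1 - c) ≤ y ^ (α - 1 - c) :=
    Real.rpow_le_rpow_of_nonpos hy0 hyT (by linarith)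
  have hk : ∑ k ∈ Finset.Ioc ⌊y⌋₊ ⌊T⌋₊, (k : ℝ)⁻¹ * a k =
      T⁻¹ * PS a T - y⁻¹ * PS a y - ∫ t in y..T, (-(t ^ 2)⁻¹ * PS a t) := by
    rw [intervalIntegral.integral_of_le hyT]
    exact habel
  rw [hI2] at hI
  set I1 : ℝ := ∫ t in y..T, (-(t ^ 2)⁻¹ * PS a t) with hI1
  have h1α : (1 - α) ≠ 0 := by linarith
  have e : ∑ k ∈ Finset.Ioc ⌊y⌋₊ ⌊T⌋₊, (k : ℝ)⁻¹ * a k -
      κ * (α / (1 - α)) * (y ^ (α - 1) - T ^ (α - 1)) =
      (T⁻¹ * PS a T - κ * T ^ (α - 1)) - (y⁻¹ * PS a y - κ * y ^ (α - 1)) -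
      (I1 + κ * ((y ^ (α - 1) - T ^ (α - 1)) / (1 - α))) := by
    rw [hk]
    field_simp
    ring
  rw [e]
  have hCT : C * T ^ (α - 1 - c) ≤ C * y ^ (α - 1 - c) := mul_le_mul_of_nonneg_left hTy hC.le
  calc |(T⁻¹ * PS a T - κ * T ^ (α - 1)) - (y⁻¹ * PS a y - κ * y ^ (α - 1)) -
      (I1 + κ * ((y ^ (α - 1) - T ^ (α - 1)) / (1 - α)))|
      ≤ |(T⁻¹ * PS a T - κ * T ^ (α - 1)) - (y⁻¹ * PS a y - κ * y ^ (α - 1))| +
        |I1 + κ * ((y ^ (α - 1) - T ^ (α - 1)) / (1 - α))| := abs_sub _ _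
    _ ≤ (|T⁻¹ * PS a T - κ * T ^ (α - 1)| + |y⁻¹ * PS a y - κ * y ^ (α - 1)|) +
        |I1 + κ * ((y ^ (α - 1) - T ^ (α - 1)) / (1 - α))| := by
        gcongr
        exact abs_sub _ _
    _ ≤ (C * y ^ (α - 1 - c) + C * y ^ (α - 1 - c)) + C * (1 / (1 - α + c)) * y ^ (α - 1 - c) := by
        linarith [hI.trans hI3]
    _ = _ := by ring

theorem abel_lim (a : ℕ → ℝ) (ha : ∀ n, 0 ≤ a n) (κ α c C : ℝ) (hα1 : α < 1) (hc : 0 < c)
    (hC : 0 < C) (h : ∀ x : ℝ, 1 ≤ x → |PS a x - κ * x ^ α| ≤ C * x ^ (α - c)) :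
    Summable (fun k : ℕ => (k : ℝ)⁻¹ * a k) ∧ ∀ y : ℝ, 1 ≤ y →
      |∑' k : ℕ, (k : ℝ)⁻¹ * a k - ∑ k ∈ Finset.Icc 0 ⌊y⌋₊, (k : ℝ)⁻¹ * a k -
        κ * (α / (1 - α)) * y ^ (α - 1)| ≤ C * (2 + 1 / (1 - α + c)) * y ^ (α - 1 - c) := by
  set K : ℝ := C * (2 + 1 / (1 - α + c)) with hK
  have hp : 0 < 1 - α + c := by linarith
  have hK0 : 0 < K := by positivity
  have hnn : ∀ k : ℕ, 0 ≤ (k : ℝ)⁻¹ * a k := fun k => mul_nonneg (by positivity) (ha k)
  have hsplit : ∀ (m n : ℕ), m ≤ n → ∑ k ∈ Finset.Icc 0 n, (k : ℝ)⁻¹ * a k =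
      ∑ k ∈ Finset.Icc 0 m, (k : ℝ)⁻¹ * a k + ∑ k ∈ Finset.Ioc m n, (k : ℝ)⁻¹ * a k := by
    intro m n hmn
    rw [← Finset.sum_union]
    · congr 1
      ext k
      simp only [Finset.mem_union, Finset.mem_Icc, Finset.mem_Ioc]
      omega
    · rw [Finset.disjoint_left]
      intro k hk hk'
      rw [Finset.mem_Icc] at hk
      rw [Finset.mem_Ioc] at hk'
      omega
  have hbd : ∀ n : ℕ, 1 ≤ n → ∑ k ∈ Finset.Icc 0 n, (k : ℝ)⁻¹ * a k ≤
      ∑ k ∈ Finset.Icc (0 : ℕ) 1, (k : ℝ)⁻¹ * a k + (K + |κ * (α / (1 - α))| * 2) := by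
    intro n hn
    have hn1 : (1 : ℝ) ≤ n := by exact_mod_cast hn
    have h1 := abel a κ α c C hα1 hc hC h 1 n le_rfl hn1
    rw [Nat.floor_one, Nat.floor_natCast, Real.one_rpow, Real.one_rpow, mul_one] at h1
    rw [hsplit 1 n hn]
    have h2 : κ * (α / (1 - α)) * (1 - (n : ℝ) ^ (α - 1)) ≤ |κ * (α / (1 - α))| * 2 := by
      refine (le_abs_self _).trans ?_
      rw [abs_mul]
      refine mul_le_mul_of_nonneg_left ?_ (abs_nonneg _)
      have h3 : 0 ≤ (n : ℝ) ^ (α - 1) := by positivity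
      have h4 : (n : ℝ) ^ (α - 1) ≤ 1 := Real.rpow_le_one_of_one_le_of_nonpos hn1 (by linarith)
      rw [abs_le]
      constructor <;> linarith
    have h3 := (abs_le.mp h1).2
    linarith
  have hsum : Summable (fun k : ℕ => (k : ℝ)⁻¹ * a k) := by
    refine summable_of_sum_range_le hnn (c := ∑ k ∈ Finset.Icc (0 : ℕ) 1, (k : ℝ)⁻¹ * a k +
      (K + |κ * (α / (1 - α))| * 2)) (fun n => ?_)
    refine le_trans ?_ (hbd (n + 1) (by omega))
    refine Finset.sum_le_sum_of_subset_of_nonneg ?_ (fun k _ _ => hnn k)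
    intro k hk
    rw [Finset.mem_range] at hk
    rw [Finset.mem_Icc]
    omega
  refine ⟨hsum, fun y hy => ?_⟩
  have hy0 : 0 < y := by linarith
  have hlim1 : Tendsto (fun n : ℕ => ∑ k ∈ Finset.Icc 0 n, (k : ℝ)⁻¹ * a k) atTop
      (𝓝 (∑' k : ℕ, (k : ℝ)⁻¹ * a k)) := by
    have h1 := hsum.hasSum.tendsto_sum_nat.comp (tendsto_add_atTop_nat 1)
    refine h1.congr (fun n => ?_)
    simp only [Function.comp_apply]
    congr 1
    ext k
    simp only [Finset.mem_range, Finset.mem_Icc]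
    omega
  have hlim2 : Tendsto (fun n : ℕ => (n : ℝ) ^ (α - 1)) atTop (𝓝 0) := by
    have h1 := (tendsto_rpow_neg_atTop (show 0 < 1 - α by linarith)).comp
      (tendsto_natCast_atTop_atTop (R := ℝ))
    refine h1.congr (fun n => ?_)
    simp only [Function.comp_apply]
    congr 1
    ring
  have hlim3 : Tendsto (fun n : ℕ => |∑ k ∈ Finset.Icc 0 n, (k : ℝ)⁻¹ * a k -
      ∑ k ∈ Finset.Icc 0 ⌊y⌋₊, (k : ℝ)⁻¹ * a k -
        κ * (α / (1 - α)) * (y ^ (α - 1) - (n : ℝ) ^ (α - 1))|) atTop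
      (𝓝 |∑' k : ℕ, (k : ℝ)⁻¹ * a k - ∑ k ∈ Finset.Icc 0 ⌊y⌋₊, (k : ℝ)⁻¹ * a k -
        κ * (α / (1 - α)) * (y ^ (α - 1) - 0)|) :=
    ((hlim1.sub_const _).sub ((hlim2.const_sub _).const_mul _)).abs
  rw [sub_zero] at hlim3
  refine le_of_tendsto hlim3 ?_
  filter_upwards [eventually_ge_atTop ⌈y⌉₊] with n hn
  have hyn : y ≤ n := (Nat.le_ceil y).trans (Nat.cast_le.mpr hn)
  have h1 := abel a κ α c C hα1 hc hC h y n hy hyn
  rw [Nat.floor_natCast] at h1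
  have hfl : ⌊y⌋₊ ≤ n := by
    have := Nat.floor_le_floor hyn
    rwa [Nat.floor_natCast] at this
  have h2 := hsplit ⌊y⌋₊ n hfl
  have e : ∑ k ∈ Finset.Icc 0 n, (k : ℝ)⁻¹ * a k - ∑ k ∈ Finset.Icc 0 ⌊y⌋₊, (k : ℝ)⁻¹ * a k =
      ∑ k ∈ Finset.Ioc ⌊y⌋₊ n, (k : ℝ)⁻¹ * a k := by
    rw [h2]
    ring
  rw [e]
  exact h1

theorem hyper (a : ℕ → ℝ) (ha0 : a 0 = 0) (n M : ℕ) (hM : 1 ≤ M) :
    ∑ k ∈ Finset.Icc 0 n, a k * ((n / k : ℕ) : ℝ) =
      ∑ m ∈ Finset.Icc 1 M, ∑ k ∈ Finset.Icc 0 (n / m), a k +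
      ∑ k ∈ Finset.Icc 0 (n / M), a k * (((n / k : ℕ) : ℝ) - M) := by
  have h1 : ∑ m ∈ Finset.Icc 1 M, ∑ k ∈ Finset.Icc 0 (n / m), a k =
      ∑ k ∈ Finset.Icc 0 n, a k * (((Finset.Icc 1 M).filter (fun m => k ≤ n / m)).card : ℝ) := by
    have h2 : ∀ m ∈ Finset.Icc 1 M, ∑ k ∈ Finset.Icc 0 (n / m), a k =
        ∑ k ∈ Finset.Icc 0 n, if k ≤ n / m then a k else 0 := by
      intro m _
      rw [← Finset.sum_filter]
      congr 1
      ext k
      have : n / m ≤ n := Nat.div_le_self n m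
      simp only [Finset.mem_filter, Finset.mem_Icc]
      omega
    rw [Finset.sum_congr rfl h2, Finset.sum_comm]
    refine Finset.sum_congr rfl (fun k _ => ?_)
    rw [← Finset.sum_filter, Finset.sum_const, nsmul_eq_mul, mul_comm]
  have h3 : ∑ k ∈ Finset.Icc 0 (n / M), a k * (((n / k : ℕ) : ℝ) - M) =
      ∑ k ∈ Finset.Icc 0 n, if k ≤ n / M then a k * (((n / k : ℕ) : ℝ) - M) else 0 := by
    rw [← Finset.sum_filter]
    congr 1
    ext k
    have : n / M ≤ n := Nat.div_le_self n M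
    simp only [Finset.mem_filter, Finset.mem_Icc]
    omega
  rw [h1, h3, ← Finset.sum_add_distrib]
  refine Finset.sum_congr rfl (fun k _ => ?_)
  rcases Nat.eq_zero_or_pos k with hk | hk
  · subst hk
    rw [ha0]
    simp
  have h4 : (Finset.Icc 1 M).filter (fun m => k ≤ n / m) = Finset.Icc 1 (min M (n / k)) := by
    ext m
    simp only [Finset.mem_filter, Finset.mem_Icc, le_min_iff]
    constructor
    · rintro ⟨⟨h5, h6⟩, h7⟩
      refine ⟨h5, h6, ?_⟩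
      rw [Nat.le_div_iff_mul_le hk]
      rw [Nat.le_div_iff_mul_le h5] at h7
      rwa [mul_comm]
    · rintro ⟨h5, h6, h7⟩
      refine ⟨⟨h5, h6⟩, ?_⟩
      rw [Nat.le_div_iff_mul_le h5]
      rw [Nat.le_div_iff_mul_le hk] at h7
      rwa [mul_comm]
  rw [h4, Nat.card_Icc, Nat.add_sub_cancel]
  by_cases h5 : k ≤ n / M
  · rw [if_pos h5]
    have h6 : M ≤ n / k := by
      rw [Nat.le_div_iff_mul_le hk]
      rw [Nat.le_div_iff_mul_le hM] at h5
      rwa [mul_comm]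
    rw [min_eq_left h6]
    ring
  · rw [if_neg h5]
    have h6 : n / k ≤ M := by
      by_contra h7
      push Not at h7
      have h8 : M ≤ n / k := h7.le
      rw [Nat.le_div_iff_mul_le hk] at h8
      rw [Nat.le_div_iff_mul_le hM] at h5
      exact h5 (by rwa [mul_comm])
    rw [min_eq_right h6]
    ring

theorem second (a : ℕ → ℝ) (ha : ∀ n, 0 ≤ a n) (ha0 : a 0 = 0) (κ α c C : ℝ)
    (hα : 1 / 2 ≤ α) (hα1 : α < 1) (hc : 0 < c) (hcα : c ≤ α)
    (hC : 0 < C) (h : ∀ x : ℝ, 1 ≤ x → |PS a x - κ * x ^ α| ≤ C * x ^ (α - c)) :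
    ∃ K : ℝ, 0 < K ∧ ∀ X : ℝ, 1 ≤ X →
      |∑ k ∈ Finset.Icc 0 ⌊X⌋₊, a k * ((⌊X⌋₊ / k : ℕ) : ℝ) - X * ∑' k : ℕ, (k : ℝ)⁻¹ * a k -
        κ * (riemannZeta (α : ℂ)).re * X ^ α| ≤ K * X ^ (α - α * c / 2) := by
  obtain ⟨hsum, hlim⟩ := abel_lim a ha κ α c C hα1 hc hC h
  set m' : ℝ := ∑' k : ℕ, (k : ℝ)⁻¹ * a k with hm'
  set ζ : ℝ := (riemannZeta (α : ℂ)).re with hζ
  set K1 : ℝ := C * (2 + 1 / (1 - α + c)) with hK1
  have hp : 0 < 1 - α + c := by linarith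
  have hp1 : 0 < 1 - α := by linarith
  have hK10 : 0 < K1 := by positivity
  refine ⟨C + |κ| * 6 * 2 + (|κ| + C) * 2 + K1 + C, by positivity, ?_⟩
  intro X hX
  have hX0 : 0 < X := by linarith
  set n : ℕ := ⌊X⌋₊ with hn
  set M : ℕ := ⌊X ^ (c / 2)⌋₊ with hM
  have hXc1 : 1 ≤ X ^ (c / 2) := Real.one_le_rpow hX (by positivity)
  have hM1 : 1 ≤ M := Nat.le_floor (by exact_mod_cast hXc1)
  have hM1r : (1 : ℝ) ≤ M := by exact_mod_cast hM1
  have hM0 : (0 : ℝ) < M := by linarith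
  have hMle : (M : ℝ) ≤ X ^ (c / 2) := Nat.floor_le (by positivity)
  have hMX : (M : ℝ) ≤ X := by
    refine hMle.trans ?_
    calc X ^ (c / 2) ≤ X ^ (1 : ℝ) := Real.rpow_le_rpow_of_exponent_le hX (by linarith)
      _ = X := Real.rpow_one X
  have hMge : X ^ (c / 2) ≤ 2 * M := by
    have := Nat.lt_floor_add_one (X ^ (c / 2))
    rw [← hM] at this
    linarith
  set y : ℝ := X / M with hy
  have hy1 : 1 ≤ y := by rw [hy, le_div_iff₀ hM0]; linarith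
  have hy0 : 0 < y := by linarith
  -- floors
  have hfl : ∀ m : ℕ, ⌊X / (m : ℝ)⌋₊ = n / m := fun m => Nat.floor_div_natCast X m
  have hyfl : ⌊y⌋₊ = n / M := hfl M
  rw [hyper a ha0 n M hM1]
  have hs1 : ∑ m ∈ Finset.Icc 1 M, ∑ k ∈ Finset.Icc 0 (n / m), a k =
      ∑ m ∈ Finset.Icc 1 M, PS a (X / m) := by
    refine Finset.sum_congr rfl (fun m _ => ?_)
    unfold PS
    rw [hfl]
  have hs2 : ∑ k ∈ Finset.Icc 0 (n / M), a k * (((n / k : ℕ) : ℝ) - M) =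
      X * ∑ k ∈ Finset.Icc 0 ⌊y⌋₊, (k : ℝ)⁻¹ * a k - M * PS a y -
      ∑ k ∈ Finset.Icc 0 ⌊y⌋₊, a k * (X / k - ((n / k : ℕ) : ℝ)) := by
    unfold PS
    rw [← hyfl, Finset.mul_sum, Finset.mul_sum, ← Finset.sum_sub_distrib,
      ← Finset.sum_sub_distrib]
    refine Finset.sum_congr rfl (fun k _ => ?_)
    ring
  rw [hs1, hs2]
  -- the error terms
  set S1 : ℝ := ∑ m ∈ Finset.Icc 1 M, PS a (X / m) with hS1
  set Z1 : ℝ := ∑ m ∈ Finset.Icc 1 M, (m : ℝ) ^ (-α) with hZ1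
  set L1 : ℝ := ∑ k ∈ Finset.Icc 0 ⌊y⌋₊, (k : ℝ)⁻¹ * a k with hL1
  set R1 : ℝ := ∑ k ∈ Finset.Icc 0 ⌊y⌋₊, a k * (X / k - ((n / k : ℕ) : ℝ)) with hR1
  have hE1 : |S1 - κ * X ^ α * Z1| ≤ C * X ^ (α - c / 2) := by
    have e1 : S1 - κ * X ^ α * Z1 =
        ∑ m ∈ Finset.Icc 1 M, (PS a (X / m) - κ * (X / m) ^ α) := by
      rw [Finset.sum_sub_distrib, hZ1, Finset.mul_sum]
      congr 1
      refine Finset.sum_congr rfl (fun m hm => ?_)
      rw [Finset.mem_Icc] at hm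
      have hm0 : (0 : ℝ) < m := by exact_mod_cast hm.1
      rw [Real.div_rpow hX0.le hm0.le, Real.rpow_neg hm0.le]
      ring
    rw [e1]
    refine (Finset.abs_sum_le_sum_abs _ _).trans ?_
    calc ∑ m ∈ Finset.Icc 1 M, |PS a (X / m) - κ * (X / m) ^ α|
        ≤ ∑ m ∈ Finset.Icc 1 M, C * X ^ (α - c) := by
          refine Finset.sum_le_sum (fun m hm => ?_)
          rw [Finset.mem_Icc] at hm
          have hm0 : (0 : ℝ) < m := by exact_mod_cast hm.1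
          have hm1 : (1 : ℝ) ≤ m := by exact_mod_cast hm.1
          have hmM : (m : ℝ) ≤ M := by exact_mod_cast hm.2
          have h1 : 1 ≤ X / m := by rw [le_div_iff₀ hm0]; linarith
          refine (h (X / m) h1).trans ?_
          refine mul_le_mul_of_nonneg_left ?_ hC.le
          refine Real.rpow_le_rpow (by positivity) ?_ (by linarith)
          rw [div_le_iff₀ hm0]
          nlinarith
      _ = M * (C * X ^ (α - c)) := by simp
      _ ≤ X ^ (c / 2) * (C * X ^ (α - c)) := by gcongr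
      _ = C * (X ^ (c / 2) * X ^ (α - c)) := by ring
      _ = C * X ^ (α - c / 2) := by
          rw [← Real.rpow_add hX0]
          congr 2
          ring
  have hE2 : |Z1 - (M : ℝ) ^ (1 - α) / (1 - α) - ζ| ≤ 6 * (M : ℝ) ^ (-α) :=
    zeta_approx α hα hα1 M hM1
  have hPSy := h y hy1
  have hPSy' : PS a y ≤ (|κ| + C) * y ^ α := by
    have h1 : y ^ (α - c) ≤ y ^ α := Real.rpow_le_rpow_of_exponent_le hy1 (by linarith)
    have h2 := (abs_le.mp hPSy).2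
    have h3 : κ * y ^ α ≤ |κ| * y ^ α := mul_le_mul_of_nonneg_right (le_abs_self κ) (by positivity)
    have h4 : C * y ^ (α - c) ≤ C * y ^ α := mul_le_mul_of_nonneg_left h1 hC.le
    linarith
  have hE3 : |R1| ≤ (|κ| + C) * y ^ α := by
    have h1 : ∀ k ∈ Finset.Icc 0 ⌊y⌋₊, 0 ≤ a k * (X / k - ((n / k : ℕ) : ℝ)) ∧
        a k * (X / k - ((n / k : ℕ) : ℝ)) ≤ a k := by
      intro k _
      have h2 : ((n / k : ℕ) : ℝ) ≤ X / k := by
        rw [← hfl k]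
        exact Nat.floor_le (by positivity)
      have h3 : X / k ≤ ((n / k : ℕ) : ℝ) + 1 := by
        rw [← hfl k]
        exact (Nat.lt_floor_add_one _).le
      constructor
      · exact mul_nonneg (ha k) (by linarith)
      · calc a k * (X / k - ((n / k : ℕ) : ℝ)) ≤ a k * 1 :=
              mul_le_mul_of_nonneg_left (by linarith) (ha k)
          _ = a k := mul_one _
    have h2 : 0 ≤ R1 := Finset.sum_nonneg (fun k hk => (h1 k hk).1)
    rw [abs_of_nonneg h2]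
    exact (Finset.sum_le_sum (fun k hk => (h1 k hk).2)).trans hPSy'
  have hE4 := hlim y hy1
  rw [← hL1] at hE4
  -- powers
  have hXM : X = y * M := by rw [hy]; field_simp
  have hyα : y ^ α = X ^ α * (M : ℝ) ^ (-α) := by
    rw [hy, Real.div_rpow hX0.le hM0.le, Real.rpow_neg hM0.le]
    rfl
  have hXy : X * y ^ (α - 1) = X ^ α * (M : ℝ) ^ (1 - α) := by
    rw [hy, Real.div_rpow hX0.le hM0.le, Real.rpow_sub hX0, Real.rpow_one, Real.rpow_sub hM0,
      Real.rpow_sub hM0, Real.rpow_one]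
    field_simp
  have hMy : M * y ^ α = X ^ α * (M : ℝ) ^ (1 - α) := by
    rw [hyα, Real.rpow_sub hM0, Real.rpow_one, Real.rpow_neg hM0.le]
    field_simp
  have hsmall : X ^ (α - c) * (M : ℝ) ^ (1 - α + c) ≤ X ^ (α - c / 2) := by
    have h1 : (M : ℝ) ^ (1 - α + c) ≤ M := by
      calc (M : ℝ) ^ (1 - α + c) ≤ (M : ℝ) ^ (1 : ℝ) :=
            Real.rpow_le_rpow_of_exponent_le hM1r (by linarith)
        _ = M := Real.rpow_one _
    calc X ^ (α - c) * (M : ℝ) ^ (1 - α + c) ≤ X ^ (α - c) * X ^ (c / 2) := by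
          refine mul_le_mul_of_nonneg_left (h1.trans hMle) (by positivity)
      _ = X ^ (α - c / 2) := by
          rw [← Real.rpow_add hX0]
          congr 1
          ring
  have hXyc : X * y ^ (α - 1 - c) ≤ X ^ (α - c / 2) := by
    refine le_trans (le_of_eq ?_) hsmall
    rw [hy, Real.div_rpow hX0.le hM0.le]
    have e1 : X * (X ^ (α - 1 - c) / (M : ℝ) ^ (α - 1 - c)) =
        (X ^ (1 : ℝ) * X ^ (α - 1 - c)) * ((M : ℝ) ^ (α - 1 - c))⁻¹ := by
      rw [Real.rpow_one]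
      ring
    rw [e1, ← Real.rpow_add hX0, ← Real.rpow_neg hM0.le]
    congr 2 <;> ring
  have hMyc : M * y ^ (α - c) ≤ X ^ (α - c / 2) := by
    refine le_trans (le_of_eq ?_) hsmall
    rw [hy, Real.div_rpow hX0.le hM0.le]
    have e1 : (M : ℝ) * (X ^ (α - c) / (M : ℝ) ^ (α - c)) =
        X ^ (α - c) * ((M : ℝ) ^ (1 : ℝ) * ((M : ℝ) ^ (α - c))⁻¹) := by
      rw [Real.rpow_one]
      ring
    rw [e1, ← Real.rpow_neg hM0.le, ← Real.rpow_add hM0]
    congr 2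
    ring
  have hMα : X ^ α * (M : ℝ) ^ (-α) ≤ 2 * X ^ (α - α * c / 2) := by
    have h1 : (M : ℝ) ^ (-α) ≤ (X ^ (c / 2) / 2) ^ (-α) :=
      Real.rpow_le_rpow_of_nonpos (by positivity) (by linarith) (by linarith)
    have h2 : (X ^ (c / 2) / 2) ^ (-α) = X ^ (-(α * c / 2)) * 2 ^ α := by
      rw [Real.div_rpow (by positivity) (by norm_num), ← Real.rpow_mul hX0.le,
        Real.rpow_neg (by norm_num : (0 : ℝ) ≤ 2), div_inv_eq_mul]
      congr 2
      ring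
    have h3 : (2 : ℝ) ^ α ≤ 2 := by
      calc (2 : ℝ) ^ α ≤ 2 ^ (1 : ℝ) := Real.rpow_le_rpow_of_exponent_le (by norm_num) hα1.le
        _ = 2 := Real.rpow_one 2
    calc X ^ α * (M : ℝ) ^ (-α) ≤ X ^ α * (X ^ (-(α * c / 2)) * 2 ^ α) := by
          rw [← h2]
          exact mul_le_mul_of_nonneg_left h1 (by positivity)
      _ ≤ X ^ α * (X ^ (-(α * c / 2)) * 2) := by gcongr
      _ = 2 * (X ^ α * X ^ (-(α * c / 2))) := by ring
      _ = 2 * X ^ (α - α * c / 2) := by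
          rw [← Real.rpow_add hX0]
          congr 2
  have hXX : X ^ (α - c / 2) ≤ X ^ (α - α * c / 2) := by
    refine Real.rpow_le_rpow_of_exponent_le hX ?_
    have : α * c ≤ 1 * c := mul_le_mul_of_nonneg_right hα1.le hc.le
    linarith
  set W : ℝ := X ^ (α - α * c / 2) with hW
  have hW0 : 0 < W := Real.rpow_pos_of_pos hX0 _
  -- identity
  have hid : S1 + (X * L1 - M * PS a y - R1) - X * m' - κ * ζ * X ^ α =
      (S1 - κ * X ^ α * Z1) + κ * X ^ α * (Z1 - (M : ℝ) ^ (1 - α) / (1 - α) - ζ) - R1 -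
      X * (m' - L1 - κ * (α / (1 - α)) * y ^ (α - 1)) - M * (PS a y - κ * y ^ α) := by
    have h1 : X * (κ * (α / (1 - α)) * y ^ (α - 1)) =
        κ * (α / (1 - α)) * (X ^ α * (M : ℝ) ^ (1 - α)) := by rw [← hXy]; ring
    have h2 : M * (κ * y ^ α) = κ * (X ^ α * (M : ℝ) ^ (1 - α)) := by rw [← hMy]; ring
    have h3 : κ * X ^ α * ((M : ℝ) ^ (1 - α) / (1 - α)) =
        κ * (α / (1 - α)) * (X ^ α * (M : ℝ) ^ (1 - α)) +
        κ * (X ^ α * (M : ℝ) ^ (1 - α)) := by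
      field_simp
      ring
    linear_combination h3 - h1 - h2
  rw [hid]
  have hb2 : |κ * X ^ α * (Z1 - (M : ℝ) ^ (1 - α) / (1 - α) - ζ)| ≤ |κ| * 6 * 2 * W := by
    rw [abs_mul, abs_mul, abs_of_pos (by positivity : 0 < X ^ α)]
    calc |κ| * X ^ α * |Z1 - (M : ℝ) ^ (1 - α) / (1 - α) - ζ|
        ≤ |κ| * X ^ α * (6 * (M : ℝ) ^ (-α)) := mul_le_mul_of_nonneg_left hE2 (by positivity)
      _ = |κ| * 6 * (X ^ α * (M : ℝ) ^ (-α)) := by ring
      _ ≤ |κ| * 6 * (2 * W) := mul_le_mul_of_nonneg_left hMα (by positivity)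
      _ = _ := by ring
  have hb3 : |R1| ≤ (|κ| + C) * 2 * W := by
    calc |R1| ≤ (|κ| + C) * y ^ α := hE3
      _ = (|κ| + C) * (X ^ α * (M : ℝ) ^ (-α)) := by rw [hyα]
      _ ≤ (|κ| + C) * (2 * W) := mul_le_mul_of_nonneg_left hMα (by positivity)
      _ = _ := by ring
  have hb4 : |X * (m' - L1 - κ * (α / (1 - α)) * y ^ (α - 1))| ≤ K1 * W := by
    rw [abs_mul, abs_of_pos hX0]
    calc X * |m' - L1 - κ * (α / (1 - α)) * y ^ (α - 1)| ≤ X * (K1 * y ^ (α - 1 - c)) :=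
          mul_le_mul_of_nonneg_left hE4 hX0.le
      _ = K1 * (X * y ^ (α - 1 - c)) := by ring
      _ ≤ K1 * W := mul_le_mul_of_nonneg_left (hXyc.trans hXX) hK10.le
  have hb5 : |M * (PS a y - κ * y ^ α)| ≤ C * W := by
    rw [abs_mul, abs_of_pos hM0]
    calc (M : ℝ) * |PS a y - κ * y ^ α| ≤ M * (C * y ^ (α - c)) :=
          mul_le_mul_of_nonneg_left hPSy hM0.le
      _ = C * (M * y ^ (α - c)) := by ring
      _ ≤ C * W := mul_le_mul_of_nonneg_left (hMyc.trans hXX) hC.le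
  have hb1 : |S1 - κ * X ^ α * Z1| ≤ C * W := hE1.trans (mul_le_mul_of_nonneg_left hXX hC.le)
  have habs : ∀ p q r s t : ℝ, |p + q - r - s - t| ≤ |p| + |q| + |r| + |s| + |t| := by
    intro p q r s t
    have h1 := abs_sub (p + q - r - s) t
    have h2 := abs_sub (p + q - r) s
    have h3 := abs_sub (p + q) r
    have h4 := abs_add_le p q
    linarith
  refine (habs _ _ _ _ _).trans ?_
  calc _ ≤ C * W + |κ| * 6 * 2 * W + (|κ| + C) * 2 * W + K1 * W + C * W := by linarith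
    _ = _ := by ring

end Pool.Agent.H38.UE
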