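import Pool.Agent.H38.UE.Moment
import Pool.Agent.H38.UE.Second
import Pool.Agent.H82.AS.All
import Pool.Agent.H82.AS.Glue
import Pool.Agent.H38.RB.All

/-!
# The admissible triples
-/

set_option autoImplicit false

open Finset Filter Topology

namespace Pool.Agent.H38.UE

open Pool.Agent.H38.RB Pool.Agent.H38.PS

/-- a bound for `A ^ ω(N)` -/
theorem pow_omega (A ε : ℝ) (hA : 1 ≤ A) (hε : 0 < ε) :
    ∃ C : ℝ, 0 < C ∧ ∀ N : ℕ, 1 ≤ N → A ^ N.primeFactors.card ≤ C * (N : ℝ) ^ ε := by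
  set P : ℕ := ⌈A ^ (1 / ε)⌉₊ with hP
  refine ⟨A ^ P, by positivity, ?_⟩
  intro N hN
  have hA0 : 0 < A := by linarith
  have h1 : ∀ p ∈ N.primeFactors, A ≤ (if p < P then A else 1) * (p : ℝ) ^ ε := by
    intro p hp
    have hp1 : 1 ≤ p := (Nat.prime_of_mem_primeFactors hp).one_lt.le
    have hp1' : (1 : ℝ) ≤ p := by exact_mod_cast hp1
    split_ifs with h
    · have : 1 ≤ (p : ℝ) ^ ε := Real.one_le_rpow hp1' hε.le
      nlinarith
    · rw [one_mul]
      push Not at h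
      have h2 : A ^ (1 / ε) ≤ p := (Nat.le_ceil _).trans (Nat.cast_le.mpr h)
      calc A = (A ^ (1 / ε)) ^ ε := by
            rw [← Real.rpow_mul hA0.le]
            field_simp
            rw [Real.rpow_one]
        _ ≤ (p : ℝ) ^ ε := Real.rpow_le_rpow (by positivity) h2 hε.le
  have h2 : A ^ N.primeFactors.card ≤ (∏ p ∈ N.primeFactors, (if p < P then A else 1)) *
      ∏ p ∈ N.primeFactors, (p : ℝ) ^ ε := by
    rw [← Finset.prod_mul_distrib, ← Finset.prod_const]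
    exact Finset.prod_le_prod (fun p _ => hA0.le) h1
  refine h2.trans ?_
  have h3 : ∏ p ∈ N.primeFactors, (if p < P then A else 1) ≤ A ^ P := by
    rw [Finset.prod_ite, Finset.prod_const, Finset.prod_const_one, mul_one]
    refine pow_le_pow_right₀ hA ?_
    calc (N.primeFactors.filter (fun p => p < P)).card ≤ (Finset.range P).card := by
          refine Finset.card_le_card (fun p hp => ?_)
          rw [Finset.mem_filter] at hp
          exact Finset.mem_range.mpr hp.2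
      _ = P := Finset.card_range P
  have h4 : ∏ p ∈ N.primeFactors, (p : ℝ) ^ ε ≤ (N : ℝ) ^ ε := by
    rw [Real.finsetProd_rpow _ _ (fun p _ => by positivity)]
    refine Real.rpow_le_rpow (by positivity) ?_ hε.le
    have h5 : ∏ p ∈ N.primeFactors, p ≤ N := Nat.le_of_dvd hN (Nat.prod_primeFactors_dvd N)
    have h6 : ((∏ p ∈ N.primeFactors, p : ℕ) : ℝ) ≤ (N : ℝ) := Nat.cast_le.mpr h5
    push_cast at h6
    exact h6
  exact mul_le_mul h3 h4 (Finset.prod_nonneg (fun p _ => by positivity)) (by positivity)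

/-- the admissible triples -/
abbrev Tri : Type := {x : Fin 3 → ℤ // Adm x}

/-- the radical of the product of the entries -/
def rd (x : Tri) : ℕ := pd (pr x.1).primeFactors

theorem pr_ne (x : Tri) : pr x.1 ≠ 0 := by
  obtain ⟨h, -, -⟩ := x.2
  unfold pr
  rw [Int.natAbs_ne_zero]
  exact mul_ne_zero (mul_ne_zero (h 0) (h 1)) (h 2)

theorem rd_sq (x : Tri) : Squarefree (rd x) := by
  unfold rd pd
  rw [← Nat.radical_eq_prod_primeFactors]
  exact UniqueFactorizationMonoid.squarefree_radical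

theorem rd_pos (x : Tri) : 1 ≤ rd x := Nat.pos_of_ne_zero (rd_sq x).ne_zero

theorem cnt_rd : ∃ c C : ℝ, 0 < c ∧ 0 < C ∧ ∀ X : ℝ, 1 ≤ X → {x : Tri | (rd x : ℝ) ≤ X}.Finite ∧
    |({x : Tri | (rd x : ℝ) ≤ X}.ncard : ℝ) - Pool.Agent.H82.AS.kappa * X ^ (2 / 3 : ℝ)| ≤
      C * X ^ (2 / 3 - c) := by
  obtain ⟨c, C, hc, hC, h⟩ := Pool.Agent.H82.AS.asy
  refine ⟨c, C, hc, hC, ?_⟩
  intro X hX
  obtain ⟨h1, h2⟩ := h X hX
  have himg : Subtype.val '' {x : Tri | (rd x : ℝ) ≤ X} = Pool.Agent.H82.AS.NS X := by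
    ext x
    constructor
    · rintro ⟨y, hy, rfl⟩
      exact ⟨y.2, hy⟩
    · intro hx
      exact ⟨⟨x, hx.1⟩, hx.2, rfl⟩
  have hfin : {x : Tri | (rd x : ℝ) ≤ X}.Finite :=
    Set.Finite.of_finite_image (by rw [himg]; exact h1) Subtype.val_injective.injOn
  refine ⟨hfin, ?_⟩
  have h3 : {x : Tri | (rd x : ℝ) ≤ X}.ncard = (Pool.Agent.H82.AS.NS X).ncard := by
    rw [← himg, Set.ncard_image_of_injective _ Subtype.val_injective]
  rw [h3, Pool.Agent.H82.AS.kappa_eq Pool.Agent.H82.AS.eul Pool.Agent.H82.AS.ari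
    Pool.Agent.H50.AS.pf_BET]
  exact h2

theorem thin_rd : ∃ C : ℝ, 0 < C ∧ Thin rd C (1 / 3) := by
  obtain ⟨c, C, hc, hC, h⟩ := cnt_rd
  set K : ℝ := Pool.Agent.H82.AS.kappa with hK
  refine ⟨|K| + C, by positivity, ?_⟩
  intro Z hZ
  obtain ⟨h1, h2⟩ := h Z hZ
  have hZ0 : 0 < Z := by linarith
  refine ⟨h1, ?_⟩
  have h5 : Z ^ (2 / 3 - c) ≤ Z ^ (2 / 3 : ℝ) :=
    Real.rpow_le_rpow_of_exponent_le hZ (by linarith)
  have e : (1 : ℝ) - 1 / 3 = 2 / 3 := by norm_num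
  rw [e]
  have h4 := (abs_le.mp h2).2
  have h6 : K * Z ^ (2 / 3 : ℝ) ≤ |K| * Z ^ (2 / 3 : ℝ) :=
    mul_le_mul_of_nonneg_right (le_abs_self K) (by positivity)
  have h7 : C * Z ^ (2 / 3 - c) ≤ C * Z ^ (2 / 3 : ℝ) := mul_le_mul_of_nonneg_left h5 hC.le
  linarith

/-- the number of the `i` with `r i = k` -/
noncomputable def fb {ι : Type*} (r : ι → ℕ) (k : ℕ) : ℝ := ({i | r i = k}.ncard : ℝ)

theorem PS_fb {ι : Type*} (r : ι → ℕ) (x : ℝ) (hx : 0 ≤ x) (hfin : {i | (r i : ℝ) ≤ x}.Finite) :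
    PS (fb r) x = ({i | (r i : ℝ) ≤ x}.ncard : ℝ) := by
  classical
  unfold PS fb
  rw [Set.ncard_eq_toFinset_card _ hfin]
  have hmaps : ∀ i ∈ hfin.toFinset, r i ∈ Finset.Icc 0 ⌊x⌋₊ := by
    intro i hi
    rw [Set.Finite.mem_toFinset] at hi
    rw [Finset.mem_Icc]
    exact ⟨Nat.zero_le _, Nat.le_floor hi⟩
  rw [Finset.card_eq_sum_card_fiberwise hmaps]
  push_cast
  refine Finset.sum_congr rfl (fun k hk => ?_)
  have e : {i | r i = k} = ((hfin.toFinset.filter (fun i => r i = k) : Finset ι) : Set ι) := by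
    ext i
    rw [Finset.coe_filter, Set.mem_ofPred_eq, Set.mem_ofPred_eq, Set.Finite.mem_toFinset]
    constructor
    · intro hi
      refine ⟨?_, hi⟩
      rw [Finset.mem_Icc] at hk
      have h1 : (k : ℝ) ≤ x := (Nat.le_floor_iff hx).mp hk.2
      rw [← hi] at h1
      exact h1
    · exact fun hi => hi.2
  rw [e, Set.ncard_coe_finset]

theorem sum_fb {ι : Type*} (r : ι → ℕ) (n : ℕ) (hfin : {i | r i ≤ n}.Finite) :
    ∑ N ∈ Finset.Icc 1 n, ({i | r i ∣ N}.ncard : ℝ) =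
      ∑ k ∈ Finset.Icc 0 n, fb r k * ((n / k : ℕ) : ℝ) := by
  classical
  set S : Finset ι := hfin.toFinset with hS
  have hSm : ∀ i, i ∈ S ↔ r i ≤ n := fun i => by rw [hS, Set.Finite.mem_toFinset]; rfl
  have e1 : ∀ N ∈ Finset.Icc 1 n, ({i | r i ∣ N}.ncard : ℝ) =
      ∑ i ∈ S, if r i ∣ N then (1 : ℝ) else 0 := by
    intro N hN
    rw [Finset.mem_Icc] at hN
    have : {i | r i ∣ N} = ((S.filter (fun i => r i ∣ N) : Finset ι) : Set ι) := by
      ext i
      rw [Finset.coe_filter, Set.mem_ofPred_eq, Set.mem_ofPred_eq, hSm]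
      constructor
      · intro hd
        exact ⟨(Nat.le_of_dvd hN.1 hd).trans hN.2, hd⟩
      · exact fun hd => hd.2
    rw [this, Set.ncard_coe_finset, Finset.card_filter]
    push_cast
    rfl
  have e2 : ∑ N ∈ Finset.Icc 1 n, ({i | r i ∣ N}.ncard : ℝ) = ∑ i ∈ S, ((n / r i : ℕ) : ℝ) := by
    rw [Finset.sum_congr rfl e1, Finset.sum_comm]
    refine Finset.sum_congr rfl (fun i _ => ?_)
    have h1 : ∑ N ∈ Finset.Icc 1 n, (if r i ∣ N then (1 : ℝ) else 0) =
        (((Finset.Icc 1 n).filter (fun N => r i ∣ N)).card : ℝ) := by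
      rw [Finset.card_filter]
      push_cast
      rfl
    rw [h1]
    congr 1
    have h2 := Nat.Ioc_filter_dvd_card_eq_div n (r i)
    rw [← h2]
    rfl
  rw [e2, ← Finset.sum_fiberwise_of_maps_to (g := r) (t := Finset.Icc 0 n)
    (fun i hi => by rw [Finset.mem_Icc]; exact ⟨Nat.zero_le _, (hSm i).mp hi⟩)]
  refine Finset.sum_congr rfl (fun k hk => ?_)
  rw [Finset.mem_Icc] at hk
  have e3 : ∀ i ∈ S.filter (fun i => r i = k), ((n / r i : ℕ) : ℝ) = ((n / k : ℕ) : ℝ) := by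
    intro i hi
    rw [Finset.mem_filter] at hi
    rw [hi.2]
  rw [Finset.sum_congr rfl e3, Finset.sum_const, nsmul_eq_mul]
  congr 1
  unfold fb
  have e : {i | r i = k} = ((S.filter (fun i => r i = k) : Finset ι) : Set ι) := by
    ext i
    rw [Finset.coe_filter, Set.mem_ofPred_eq, Set.mem_ofPred_eq, hSm]
    constructor
    · intro hi
      exact ⟨by omega, hi⟩
    · exact fun hi => hi.2
  rw [e, Set.ncard_coe_finset]

/-- the mean number of solutions with its second term -/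
theorem first_moment : ∃ m c K : ℝ, 0 < c ∧ 0 < K ∧ ∀ X : ℝ, 1 ≤ X →
    |∑ N ∈ Finset.Icc 1 ⌊X⌋₊, ({x : Tri | rd x ∣ N}.ncard : ℝ) - X * m -
      Pool.Agent.H82.AS.kappa * (riemannZeta ((2 / 3 : ℝ) : ℂ)).re * X ^ (2 / 3 : ℝ)| ≤
        K * X ^ (2 / 3 - c) := by
  obtain ⟨c, C, hc, hC, h⟩ := cnt_rd
  set c' : ℝ := min c (2 / 3) with hc'
  have hc'0 : 0 < c' := lt_min hc (by norm_num)
  have hc'1 : c' ≤ c := min_le_left _ _
  have hc'2 : c' ≤ 2 / 3 := min_le_right _ _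
  have hPS : ∀ x : ℝ, 1 ≤ x → |PS (fb rd) x - Pool.Agent.H82.AS.kappa * x ^ (2 / 3 : ℝ)| ≤
      C * x ^ (2 / 3 - c') := by
    intro x hx
    obtain ⟨h1, h2⟩ := h x hx
    rw [PS_fb rd x (by linarith) h1]
    refine h2.trans (mul_le_mul_of_nonneg_left ?_ hC.le)
    exact Real.rpow_le_rpow_of_exponent_le hx (by linarith)
  have hz : fb rd 0 = 0 := by
    unfold fb
    have : {x : Tri | rd x = 0} = ∅ := by
      ext x
      have := rd_pos x
      simp only [Set.mem_ofPred_eq, Set.mem_empty_iff_false, iff_false]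
      omega
    rw [this]
    simp
  obtain ⟨K, hK, hs⟩ := second (fb rd) (fun n => by unfold fb; positivity) hz
    Pool.Agent.H82.AS.kappa (2 / 3) c' C (by norm_num) (by norm_num) hc'0 hc'2 hC hPS
  refine ⟨∑' k : ℕ, (k : ℝ)⁻¹ * fb rd k, 2 / 3 * c' / 2, K, by positivity, hK, ?_⟩
  intro X hX
  have h1 := hs X hX
  have hfin : {x : Tri | rd x ≤ ⌊X⌋₊}.Finite := by
    refine (h X hX).1.subset (fun x hx => ?_)
    have hx' : rd x ≤ ⌊X⌋₊ := hx
    have h2 : (rd x : ℝ) ≤ X := (Nat.le_floor_iff (by linarith)).mp hx'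
    exact h2
  rw [← sum_fb rd ⌊X⌋₊ hfin] at h1
  exact h1

theorem few_rd : Few rd := by
  intro ε hε
  obtain ⟨C, hC, h⟩ := qr 0 (by norm_num)
  obtain ⟨C', hC', h'⟩ := pow_omega C ε hC hε
  refine ⟨C * C', by positivity, ?_⟩
  intro N hN
  obtain ⟨hf, hc⟩ := h N.primeFactors (fun p hp => Nat.prime_of_mem_primeFactors hp)
  have hsub : Subtype.val '' {x : Tri | rd x ∣ N} ⊆ Sol 0 N.primeFactors := by
    rintro _ ⟨x, hx, rfl⟩
    refine ⟨x.2, ?_⟩
    rw [Real.rpow_zero, one_mul]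
    have h1 : tp N.primeFactors (pr x.1) = pr x.1 := by
      unfold tp
      have h2 : (pr x.1).factorization.support ⊆ N.primeFactors := by
        intro p hp
        rw [Nat.support_factorization] at hp
        rw [Nat.mem_primeFactors]
        refine ⟨Nat.prime_of_mem_primeFactors hp, ?_, by omega⟩
        exact (Finset.dvd_prod_of_mem (fun p => p) hp).trans hx
      have h3 := Nat.prod_factorization_pow_eq_self (pr_ne x)
      rw [Finsupp.prod_of_support_subset _ h2 _ (by simp)] at h3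
      exact h3
    rw [h1]
  have h1 : {x : Tri | rd x ∣ N}.ncard ≤ (Sol 0 N.primeFactors).ncard := by
    rw [← Set.ncard_image_of_injective _ Subtype.val_injective]
    exact Set.ncard_le_ncard hsub hf
  calc ({x : Tri | rd x ∣ N}.ncard : ℝ) ≤ ((Sol 0 N.primeFactors).ncard : ℝ) := by exact_mod_cast h1
    _ ≤ C ^ (N.primeFactors.card + 1) := hc
    _ = C * C ^ N.primeFactors.card := by rw [pow_succ, mul_comm]
    _ ≤ C * (C' * (N : ℝ) ^ ε) := by
        have := h' N hN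
        gcongr
    _ = C * C' * (N : ℝ) ^ ε := by ring

end Pool.Agent.H38.UE
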