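import Mathlib

/-!
# Functions of the small prime divisors: mean values
-/

set_option autoImplicit false

open Finset

namespace Pool.Agent.H38.UE

theorem boole (T : Finset ℕ) : ∀ (f : Finset ℕ → ℝ) (b : ℝ), (∀ S, |f S| ≤ b) →
    ∃ h : Finset ℕ → ℝ, (∀ C, |h C| ≤ b * 2 ^ C.card) ∧
      ∀ S ⊆ T, f S = ∑ C ∈ S.powerset, h C := by
  induction T using Finset.induction_on with
  | empty =>
    intro f b hf
    have hb : 0 ≤ b := (abs_nonneg _).trans (hf ∅)
    refine ⟨fun C => if C = ∅ then f ∅ else 0, ?_, ?_⟩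
    · intro C
      by_cases hC : C = ∅
      · simp only [hC, if_true, Finset.card_empty, pow_zero, mul_one]
        exact hf ∅
      · simp only [hC, if_false, abs_zero]
        positivity
    · intro S hS
      rw [Finset.subset_empty] at hS
      subst hS
      simp
  | insert p T hp ih =>
    intro f b hf
    obtain ⟨h0, h0b, h0s⟩ := ih f b hf
    obtain ⟨h1, h1b, h1s⟩ := ih (fun S => f (insert p S) - f S) (2 * b) (by
      intro S
      have h2 := abs_sub (f (insert p S)) (f S)
      have h3 := hf (insert p S)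
      have h4 := hf S
      exact h2.trans (by linarith))
    refine ⟨fun C => if p ∈ C then h1 (C.erase p) else h0 C, ?_, ?_⟩
    · intro C
      by_cases hC : p ∈ C
      · simp only [hC, if_true]
        refine (h1b (C.erase p)).trans (le_of_eq ?_)
        have h2 := Finset.card_erase_add_one hC
        rw [← h2, pow_succ]
        ring
      · simp only [hC, if_false]
        exact h0b C
    · intro S hS
      by_cases hpS : p ∈ S
      · set S' : Finset ℕ := S.erase p with hS'
        have hpS' : p ∉ S' := Finset.notMem_erase p S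
        have hSS : S = insert p S' := (Finset.insert_erase hpS).symm
        have hS'T : S' ⊆ T := by
          intro q hq
          have h2 : q ∈ S := Finset.mem_of_mem_erase hq
          have h3 := hS h2
          rw [Finset.mem_insert] at h3
          rcases h3 with h3 | h3
          · exact absurd h3 (Finset.ne_of_mem_erase hq)
          · exact h3
        rw [hSS, Finset.sum_powerset_insert hpS']
        have e1 : ∑ C ∈ S'.powerset, (if p ∈ C then h1 (C.erase p) else h0 C) = f S' := by
          rw [h0s S' hS'T]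
          refine Finset.sum_congr rfl (fun C hC => ?_)
          have h2 : p ∉ C := fun h => hpS' ((Finset.mem_powerset.mp hC) h)
          rw [if_neg h2]
        have e2 : ∑ C ∈ S'.powerset, (if p ∈ insert p C then h1 ((insert p C).erase p)
            else h0 (insert p C)) = f (insert p S') - f S' := by
          rw [h1s S' hS'T]
          refine Finset.sum_congr rfl (fun C hC => ?_)
          have h2 : p ∉ C := fun h => hpS' ((Finset.mem_powerset.mp hC) h)
          rw [if_pos (Finset.mem_insert_self p C), Finset.erase_insert h2]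
        rw [e1, e2]
        ring
      · have hST : S ⊆ T := by
          intro q hq
          have h3 := hS hq
          rw [Finset.mem_insert] at h3
          rcases h3 with h3 | h3
          · exact absurd (h3 ▸ hq) hpS
          · exact h3
        rw [h0s S hST]
        refine Finset.sum_congr rfl (fun C hC => ?_)
        have h2 : p ∉ C := fun h => hpS ((Finset.mem_powerset.mp hC) h)
        exact (if_neg h2).symm

theorem prod_dvd_iff (T : Finset ℕ) (hT : ∀ p ∈ T, p.Prime) (C : Finset ℕ) (hC : C ⊆ T) (N : ℕ) :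
    C ⊆ T.filter (fun p => p ∣ N) ↔ ∏ p ∈ C, p ∣ N := by
  constructor
  · intro h
    refine Finset.prod_primes_dvd N (fun p hp => (hT p (hC hp)).prime) (fun p hp => ?_)
    exact (Finset.mem_filter.mp (h hp)).2
  · intro h p hp
    rw [Finset.mem_filter]
    exact ⟨hC hp, (Finset.dvd_prod_of_mem (fun p => p) hp).trans h⟩

theorem fl (T : Finset ℕ) (hT : ∀ p ∈ T, p.Prime) (f : Finset ℕ → ℝ) (hf : ∀ S, |f S| ≤ 1)
    (X σ : ℝ) (hX : 0 < X) (hσ : 0 ≤ σ) (hσ1 : σ ≤ 1) :
    |∑ n ∈ Finset.range ⌊X⌋₊, f (T.filter (fun p => p ∣ n + 1)) -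
      X * ((∑ n ∈ Finset.range (∏ p ∈ T, p), f (T.filter (fun p => p ∣ n + 1))) /
        ((∏ p ∈ T, p : ℕ) : ℝ))| ≤ X ^ σ * ∏ p ∈ T, (1 + 2 * (p : ℝ) ^ (-σ)) := by
  obtain ⟨h, hb, hs⟩ := boole T f 1 hf
  set P : ℕ := ∏ p ∈ T, p with hP
  have hP0 : 0 < P := Finset.prod_pos (fun p hp => (hT p hp).pos)
  have hP0r : (0 : ℝ) < (P : ℝ) := by exact_mod_cast hP0
  have hsum : ∀ m : ℕ, ∑ n ∈ Finset.range m, f (T.filter (fun p => p ∣ n + 1)) =
      ∑ C ∈ T.powerset, h C * ((m / ∏ p ∈ C, p : ℕ) : ℝ) := by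
    intro m
    have h1 : ∀ n ∈ Finset.range m, f (T.filter (fun p => p ∣ n + 1)) =
        ∑ C ∈ T.powerset, if (∏ p ∈ C, p) ∣ n + 1 then h C else 0 := by
      intro n _
      rw [hs _ (Finset.filter_subset _ _), ← Finset.sum_filter]
      refine Finset.sum_congr ?_ (fun _ _ => rfl)
      ext C
      rw [Finset.mem_powerset, Finset.mem_filter, Finset.mem_powerset]
      constructor
      · intro hC
        have hCT : C ⊆ T := hC.trans (Finset.filter_subset _ _)
        exact ⟨hCT, (prod_dvd_iff T hT C hCT (n + 1)).mp hC⟩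
      · rintro ⟨hCT, hd⟩
        exact (prod_dvd_iff T hT C hCT (n + 1)).mpr hd
    rw [Finset.sum_congr rfl h1, Finset.sum_comm]
    refine Finset.sum_congr rfl (fun C _ => ?_)
    rw [← Finset.sum_filter, Finset.sum_const, nsmul_eq_mul, mul_comm]
    congr 1
    have h2 := Nat.Ioc_filter_dvd_card_eq_div m (∏ p ∈ C, p)
    rw [← h2]
    congr 1
    rw [Finset.card_filter, Finset.card_filter]
    rw [Finset.range_eq_Ico, Finset.sum_Ico_add' (fun n => if (∏ p ∈ C, p) ∣ n then 1 else 0) 0 m 1]
    rfl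
  have hC0 : ∀ C ∈ T.powerset, 0 < ∏ p ∈ C, p := fun C hC =>
    Finset.prod_pos (fun p hp => (hT p ((Finset.mem_powerset.mp hC) hp)).pos)
  have hdens : (∑ n ∈ Finset.range P, f (T.filter (fun p => p ∣ n + 1))) / (P : ℝ) =
      ∑ C ∈ T.powerset, h C / ((∏ p ∈ C, p : ℕ) : ℝ) := by
    rw [hsum P, Finset.sum_div]
    refine Finset.sum_congr rfl (fun C hC => ?_)
    have hd : (∏ p ∈ C, p) ∣ P := Finset.prod_dvd_prod_of_subset _ _ _ (Finset.mem_powerset.mp hC)
    have h1 : (0 : ℝ) < ((∏ p ∈ C, p : ℕ) : ℝ) := by exact_mod_cast hC0 C hC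
    rw [Nat.cast_div hd h1.ne']
    field_simp
  rw [hdens, hsum ⌊X⌋₊, Finset.mul_sum, ← Finset.sum_sub_distrib]
  refine (Finset.abs_sum_le_sum_abs _ _).trans ?_
  calc ∑ C ∈ T.powerset, |h C * ((⌊X⌋₊ / ∏ p ∈ C, p : ℕ) : ℝ) -
        X * (h C / ((∏ p ∈ C, p : ℕ) : ℝ))|
      ≤ ∑ C ∈ T.powerset, X ^ σ * ∏ p ∈ C, (2 * (p : ℝ) ^ (-σ)) := by
        refine Finset.sum_le_sum (fun C hC => ?_)
        set m : ℕ := ∏ p ∈ C, p with hm
        have hm0 : (0 : ℝ) < (m : ℝ) := by exact_mod_cast hC0 C hC
        have e1 : h C * ((⌊X⌋₊ / m : ℕ) : ℝ) - X * (h C / (m : ℝ)) =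
            h C * (((⌊X⌋₊ / m : ℕ) : ℝ) - X / m) := by ring
        rw [e1, abs_mul]
        have h1 : |((⌊X⌋₊ / m : ℕ) : ℝ) - X / m| ≤ (X / m) ^ σ := by
          have hz : 0 < X / m := by positivity
          have e2 : (⌊X⌋₊ / m : ℕ) = ⌊X / (m : ℝ)⌋₊ := (Nat.floor_div_natCast X m).symm
          rw [e2]
          have h2 := Nat.floor_le hz.le
          have h3 := Nat.lt_floor_add_one (X / (m : ℝ))
          rcases le_total 1 (X / (m : ℝ)) with h4 | h4
          · have h5 : 1 ≤ (X / (m : ℝ)) ^ σ := Real.one_le_rpow h4 hσ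
            rw [abs_le]
            constructor <;> linarith
          · have h5 : X / (m : ℝ) ≤ (X / (m : ℝ)) ^ σ := by
              calc X / (m : ℝ) = (X / (m : ℝ)) ^ (1 : ℝ) := (Real.rpow_one _).symm
                _ ≤ (X / (m : ℝ)) ^ σ := Real.rpow_le_rpow_of_exponent_ge hz h4 hσ1
            have h6 : (0 : ℝ) ≤ (⌊X / (m : ℝ)⌋₊ : ℝ) := by positivity
            rw [abs_le]
            constructor <;> linarith
        have h2 : |h C| ≤ 2 ^ C.card := by
          have := hb C
          rwa [one_mul] at this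
        calc |h C| * |((⌊X⌋₊ / m : ℕ) : ℝ) - X / m| ≤ 2 ^ C.card * (X / m) ^ σ :=
              mul_le_mul h2 h1 (abs_nonneg _) (by positivity)
          _ = X ^ σ * ∏ p ∈ C, (2 * (p : ℝ) ^ (-σ)) := by
              rw [Real.div_rpow hX.le hm0.le, Finset.prod_mul_distrib, Finset.prod_const]
              have e3 : ∏ p ∈ C, (p : ℝ) ^ (-σ) = ((m : ℝ) ^ σ)⁻¹ := by
                rw [Real.finsetProd_rpow _ _ (fun p _ => by positivity), ← Real.rpow_neg hm0.le,
                  hm]
                push_cast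
                rfl
              rw [e3]
              ring
    _ = X ^ σ * ∏ p ∈ T, (1 + 2 * (p : ℝ) ^ (-σ)) := by
        rw [← Finset.mul_sum, Finset.prod_one_add]

end Pool.Agent.H38.UE
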