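import Pool.Agent.H38.UE.Tuples
import Pool.Agent.H38.UE.Sieve
import Pool.Agent.H56.RB.MER

/-!
# The law of the set of the divisors of a given kind
-/

set_option autoImplicit false

open Finset Filter Topology

namespace Pool.Agent.H38.UE

/-! ## periodic functions -/

theorem sum_periodic (f : ℕ → ℝ) (P : ℕ) (hf : ∀ n, f (n + P) = f n) (q t : ℕ) :
    ∑ n ∈ Finset.range (q * P + t), f n =
      q * ∑ n ∈ Finset.range P, f n + ∑ n ∈ Finset.range t, f n := by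
  induction q with
  | zero => simp
  | succ q ih =>
    have e : (q + 1) * P + t = P + (q * P + t) := by ring
    rw [e, Finset.sum_range_add]
    have h1 : ∀ x ∈ Finset.range (q * P + t), f (P + x) = f x := fun x _ => by rw [add_comm, hf]
    rw [Finset.sum_congr rfl h1, ih]
    push_cast
    ring

theorem count_periodic (f : ℕ → ℝ) (P : ℕ) (hP : 1 ≤ P) (hf : ∀ n, f (n + P) = f n)
    (h0 : ∀ n, 0 ≤ f n) (h1 : ∀ n, f n ≤ 1) (X : ℝ) (hX : 0 ≤ X) :
    |∑ n ∈ Finset.range ⌊X⌋₊, f n - X * ((∑ n ∈ Finset.range P, f n) / P)| ≤ P := by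
  set n : ℕ := ⌊X⌋₊ with hn
  have hP0 : (0 : ℝ) < P := by exact_mod_cast hP
  set q : ℕ := n / P with hq
  set t : ℕ := n % P with ht
  have hqt : n = q * P + t := (Nat.div_add_mod' n P).symm
  have htP : t < P := Nat.mod_lt _ hP
  have htP' : (t : ℝ) + 1 ≤ P := by exact_mod_cast htP
  set s : ℝ := ∑ n ∈ Finset.range P, f n with hs
  have hs0 : 0 ≤ s := Finset.sum_nonneg (fun i _ => h0 i)
  have hs1 : s ≤ P := by
    calc s ≤ ∑ n ∈ Finset.range P, (1 : ℝ) := Finset.sum_le_sum (fun i _ => h1 i)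
      _ = P := by simp
  have hst0 : 0 ≤ ∑ n ∈ Finset.range t, f n := Finset.sum_nonneg (fun i _ => h0 i)
  have hst1 : ∑ n ∈ Finset.range t, f n ≤ t := by
    calc ∑ n ∈ Finset.range t, f n ≤ ∑ n ∈ Finset.range t, (1 : ℝ) :=
          Finset.sum_le_sum (fun i _ => h1 i)
      _ = t := by simp
  have hX1 : (n : ℝ) ≤ X := Nat.floor_le hX
  have hX2 : X < n + 1 := Nat.lt_floor_add_one X
  have hnr : (n : ℝ) = q * P + t := by exact_mod_cast hqt
  rw [hqt, sum_periodic f P hf q t]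
  set u : ℝ := s / P with hu
  have hsu : s = u * P := by rw [hu]; field_simp
  have hu0 : 0 ≤ u := by positivity
  have hu1 : u ≤ 1 := by rw [hu, div_le_one hP0]; exact hs1
  have e : q * s + ∑ n ∈ Finset.range t, f n - X * u =
      ∑ n ∈ Finset.range t, f n - (X - q * P) * u := by rw [hsu]; ring
  rw [e]
  have h2 : 0 ≤ (X - q * P) * u := mul_nonneg (by linarith [(Nat.cast_nonneg t : (0:ℝ) ≤ t)]) hu0
  have h3 : (X - q * P) * u ≤ P := by
    calc (X - q * P) * u ≤ (X - q * P) * 1 :=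
          mul_le_mul_of_nonneg_left hu1 (by linarith [(Nat.cast_nonneg t : (0:ℝ) ≤ t)])
      _ ≤ P := by linarith
  rw [abs_le]
  constructor <;> linarith

/-! ## the sets -/

section

variable {ι : Type*} (r : ι → ℕ)

/-- the `i` with `r i` dividing `N` -/
def EE (N : ℕ) : Set ι := {i | r i ∣ N}

/-- the `i` with `r i` dividing `N` and composed of primes up to `B` -/
def EB (B N : ℕ) : Set ι := {i | r i ∣ primorial B ∧ r i ∣ N}

open Classical in
/-- the number of `N ≤ X` for which the set belongs to `𝒮` -/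
noncomputable def cn (𝒮 : Set (Set ι)) (X : ℝ) : ℝ :=
  ∑ n ∈ Finset.range ⌊X⌋₊, if EE r (n + 1) ∈ 𝒮 then (1 : ℝ) else 0

open Classical in
/-- the same with the truncated set -/
noncomputable def cB (𝒮 : Set (Set ι)) (B : ℕ) (X : ℝ) : ℝ :=
  ∑ n ∈ Finset.range ⌊X⌋₊, if EB r B (n + 1) ∈ 𝒮 then (1 : ℝ) else 0

open Classical in
/-- the density of the truncated set -/
noncomputable def wB (𝒮 : Set (Set ι)) (B : ℕ) : ℝ :=
  (∑ n ∈ Finset.range (primorial B), if EB r B (n + 1) ∈ 𝒮 then (1 : ℝ) else 0) / primorial B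

variable {r}

theorem dvd_primorial (hsq : ∀ i, Squarefree (r i)) {B : ℕ} {i : ι} (h : r i ≤ B) :
    r i ∣ primorial B := by
  have h0 : r i ≠ 0 := (hsq i).ne_zero
  rw [← Nat.prod_primeFactors_of_squarefree (hsq i), primorial]
  refine Finset.prod_dvd_prod_of_subset _ _ _ (fun p hp => ?_)
  have hp' := Nat.mem_primeFactors.mp hp
  rw [Finset.mem_filter, Finset.mem_range]
  have : p ≤ r i := Nat.le_of_dvd (Nat.pos_of_ne_zero h0) hp'.2.1
  exact ⟨by omega, hp'.1⟩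

theorem EB_periodic (B N : ℕ) : EB r B (N + primorial B) = EB r B N := by
  ext i
  constructor
  · rintro ⟨h1, h2⟩
    exact ⟨h1, (Nat.dvd_add_left h1).mp h2⟩
  · rintro ⟨h1, h2⟩
    exact ⟨h1, dvd_add h2 h1⟩

theorem EB_filter (hsq : ∀ i, Squarefree (r i)) (B N : ℕ) :
    EB r B N = {i | r i ∣ ∏ p ∈ ((Finset.range (B + 1)).filter Nat.Prime).filter
      (fun p => p ∣ N), p} := by
  set T : Finset ℕ := (Finset.range (B + 1)).filter Nat.Prime with hT
  have hTp : ∀ p ∈ T, p.Prime := fun p hp => (Finset.mem_filter.mp hp).2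
  have hprim : primorial B = ∏ p ∈ T, p := rfl
  ext i
  constructor
  · rintro ⟨h1, h2⟩
    rw [Set.mem_ofPred_eq, ← Nat.prod_primeFactors_of_squarefree (hsq i)]
    refine Finset.prod_dvd_prod_of_subset _ _ _ (fun p hp => ?_)
    have hp' := Nat.mem_primeFactors.mp hp
    rw [Finset.mem_filter]
    refine ⟨?_, hp'.2.1.trans h2⟩
    have h3 : p ∣ ∏ q ∈ T, q := by
      rw [← hprim]
      exact hp'.2.1.trans h1
    obtain ⟨q, hq, hd⟩ := hp'.1.prime.exists_mem_finset_dvd h3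
    rw [(Nat.prime_dvd_prime_iff_eq hp'.1 (hTp q hq)).mp hd]
    exact hq
  · intro h
    rw [Set.mem_ofPred_eq] at h
    refine ⟨?_, ?_⟩
    · rw [hprim]
      exact h.trans (Finset.prod_dvd_prod_of_subset _ _ _ (Finset.filter_subset _ _))
    · refine h.trans (Finset.prod_primes_dvd N (fun p hp => ?_) (fun p hp => ?_))
      · exact (hTp p (Finset.mem_filter.mp hp).1).prime
      · exact (Finset.mem_filter.mp hp).2

theorem K0 (𝒮 : Set (Set ι)) (B : ℕ) (X : ℝ) (hX : 0 ≤ X) :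
    |cB r 𝒮 B X - X * wB r 𝒮 B| ≤ primorial B := by
  classical
  unfold cB wB
  refine count_periodic _ _ (primorial_pos B) ?_ ?_ ?_ X hX
  · intro n
    have e : n + primorial B + 1 = (n + 1) + primorial B := by ring
    rw [e, EB_periodic]
  · intro n
    split_ifs <;> norm_num
  · intro n
    split_ifs <;> norm_num

theorem K0f (hsq : ∀ i, Squarefree (r i)) (𝒮 : Set (Set ι)) (B : ℕ) (X σ : ℝ) (hX : 0 < X)
    (hσ : 0 ≤ σ) (hσ1 : σ ≤ 1) :
    |cB r 𝒮 B X - X * wB r 𝒮 B| ≤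
      X ^ σ * ∏ p ∈ (Finset.range (B + 1)).filter Nat.Prime, (1 + 2 * (p : ℝ) ^ (-σ)) := by
  classical
  set T : Finset ℕ := (Finset.range (B + 1)).filter Nat.Prime with hT
  have hTp : ∀ p ∈ T, p.Prime := fun p hp => (Finset.mem_filter.mp hp).2
  set f : Finset ℕ → ℝ := fun S => if {i | r i ∣ ∏ p ∈ S, p} ∈ 𝒮 then (1 : ℝ) else 0 with hf
  have h1 := fl T hTp f (by
    intro S
    rw [hf]
    dsimp only
    split_ifs <;> norm_num) X σ hX hσ hσ1
  have h2 : ∀ n : ℕ, (if EB r B (n + 1) ∈ 𝒮 then (1 : ℝ) else 0) =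
      f (T.filter (fun p => p ∣ n + 1)) := by
    intro n
    rw [EB_filter hsq]
  unfold cB wB
  have h3 : primorial B = ∏ p ∈ T, p := rfl
  rw [h3]
  have e1 : ∀ m : ℕ, ∑ n ∈ Finset.range m, (if EB r B (n + 1) ∈ 𝒮 then (1 : ℝ) else 0) =
      ∑ n ∈ Finset.range m, f (T.filter (fun p => p ∣ n + 1)) := fun m =>
    Finset.sum_congr rfl (fun n _ => h2 n)
  have e2 := e1 ⌊X⌋₊
  have e3 := e1 (∏ p ∈ T, p)
  calc _ = |∑ n ∈ Finset.range ⌊X⌋₊, f (T.filter (fun p => p ∣ n + 1)) -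
      X * ((∑ n ∈ Finset.range (∏ p ∈ T, p), f (T.filter (fun p => p ∣ n + 1))) /
        ((∏ p ∈ T, p : ℕ) : ℝ))| := by
        rw [← e2, ← e3]
    _ ≤ _ := h1

open Classical in
theorem K0' (hsq : ∀ i, Squarefree (r i)) (D δ : ℝ)
    (hbig : ∀ Y Z : ℝ, 1 ≤ Y → 1 ≤ Z →
      (((Finset.Icc 1 ⌊Z⌋₊).filter (fun L => ∃ i, Y ≤ (r i : ℝ) ∧ r i ∣ L)).card : ℝ) ≤
        D * Z * Y ^ (-δ)) (𝒮 : Set (Set ι)) (B : ℕ) (hB : 1 ≤ B) (X : ℝ) (hX : 1 ≤ X) :
    |cn r 𝒮 X - cB r 𝒮 B X| ≤ D * X * (B : ℝ) ^ (-δ) := by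
  refine le_trans ?_ (hbig B X (by exact_mod_cast hB) hX)
  unfold cn cB
  rw [← Finset.sum_sub_distrib]
  refine (Finset.abs_sum_le_sum_abs _ _).trans ?_
  have h1 : (((Finset.Icc 1 ⌊X⌋₊).filter (fun L => ∃ i, (B : ℝ) ≤ (r i : ℝ) ∧ r i ∣ L)).card : ℝ) =
      ∑ n ∈ Finset.range ⌊X⌋₊, if (∃ i, (B : ℝ) ≤ (r i : ℝ) ∧ r i ∣ (n + 1)) then (1 : ℝ) else 0 := by
    rw [Finset.card_filter]
    push_cast
    rw [Finset.range_eq_Ico, Finset.sum_Ico_add' (fun n => if (∃ i, (B : ℝ) ≤ (r i : ℝ) ∧ r i ∣ n)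
      then (1 : ℝ) else 0) 0 ⌊X⌋₊ 1]
    rfl
  rw [h1]
  refine Finset.sum_le_sum (fun n _ => ?_)
  by_cases h : ∃ i, (B : ℝ) ≤ (r i : ℝ) ∧ r i ∣ (n + 1)
  · rw [if_pos h]
    split_ifs <;> norm_num
  · rw [if_neg h]
    have : EE r (n + 1) = EB r B (n + 1) := by
      ext i
      constructor
      · intro hi
        refine ⟨?_, hi⟩
        by_contra hlt
        have hlt' : B < r i := by
          by_contra h5
          push Not at h5
          exact hlt (dvd_primorial hsq h5)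
        exact h ⟨i, by exact_mod_cast hlt'.le, hi⟩
      · exact fun hi => hi.2
    rw [this]
    simp

theorem K1 (D δ : ℝ)
    (h : ∀ (𝒮 : Set (Set ι)) (B : ℕ), 1 ≤ B → ∀ X : ℝ, 1 ≤ X →
      |cn r 𝒮 X - cB r 𝒮 B X| ≤ D * X * (B : ℝ) ^ (-δ)) (𝒮 : Set (Set ι)) (B : ℕ) (hB : 1 ≤ B)
    (X : ℝ) (hX : 1 ≤ X) :
    |cn r 𝒮 X - X * wB r 𝒮 B| ≤ primorial B + D * X * (B : ℝ) ^ (-δ) := by
  have h1 := h 𝒮 B hB X hX
  have h2 := K0 (r := r) 𝒮 B X (by linarith)
  calc |cn r 𝒮 X - X * wB r 𝒮 B| = |(cn r 𝒮 X - cB r 𝒮 B X) + (cB r 𝒮 B X - X * wB r 𝒮 B)| := by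
        congr 1; ring
    _ ≤ _ := (abs_add_le _ _).trans (by linarith)

theorem K2 (D δ : ℝ)
    (h : ∀ (𝒮 : Set (Set ι)) (B : ℕ), 1 ≤ B → ∀ X : ℝ, 1 ≤ X →
      |cn r 𝒮 X - cB r 𝒮 B X| ≤ D * X * (B : ℝ) ^ (-δ)) (𝒮 : Set (Set ι)) (B B' : ℕ) (hB : 1 ≤ B)
    (hB' : 1 ≤ B') :
    |wB r 𝒮 B - wB r 𝒮 B'| ≤ D * (B : ℝ) ^ (-δ) + D * (B' : ℝ) ^ (-δ) := by
  refine le_of_forall_pos_le_add (fun ε hε => ?_)
  set M : ℝ := primorial B + primorial B' with hM
  have hM0 : 0 < M := by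
    have := primorial_pos B
    have h2 : (0 : ℝ) < primorial B := by exact_mod_cast this
    positivity
  set X : ℝ := 1 + M / ε with hXd
  have hX1 : 1 ≤ X := by rw [hXd]; linarith [div_pos hM0 hε]
  have hX0 : 0 < X := by linarith
  have h1 := K1 D δ h 𝒮 B hB X hX1
  have h2 := K1 D δ h 𝒮 B' hB' X hX1
  have h3 : |X * wB r 𝒮 B - X * wB r 𝒮 B'| ≤ M + X * (D * (B : ℝ) ^ (-δ) + D * (B' : ℝ) ^ (-δ)) := by
    calc |X * wB r 𝒮 B - X * wB r 𝒮 B'|
        = |(cn r 𝒮 X - X * wB r 𝒮 B') - (cn r 𝒮 X - X * wB r 𝒮 B)| := by congr 1; ring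
      _ ≤ |cn r 𝒮 X - X * wB r 𝒮 B'| + |cn r 𝒮 X - X * wB r 𝒮 B| := abs_sub _ _
      _ ≤ _ := by rw [hM]; linarith
  have h4 : M ≤ X * ε := by
    have : X * ε = ε + M := by rw [hXd]; field_simp
    linarith
  rw [← mul_sub, abs_mul, abs_of_pos hX0] at h3
  have h5 : X * |wB r 𝒮 B - wB r 𝒮 B'| ≤
      X * (D * (B : ℝ) ^ (-δ) + D * (B' : ℝ) ^ (-δ) + ε) := by linarith
  exact le_of_mul_le_mul_left h5 hX0

theorem wB_mono {𝒮 𝒯 : Set (Set ι)} (h : 𝒮 ⊆ 𝒯) (B : ℕ) : wB r 𝒮 B ≤ wB r 𝒯 B := by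
  classical
  unfold wB
  refine div_le_div_of_nonneg_right ?_ (by positivity)
  refine Finset.sum_le_sum (fun n _ => ?_)
  by_cases hn : EB r B (n + 1) ∈ 𝒮
  · rw [if_pos hn, if_pos (h hn)]
  · rw [if_neg hn]
    split_ifs <;> norm_num

theorem wB_nonneg (𝒮 : Set (Set ι)) (B : ℕ) : 0 ≤ wB r 𝒮 B := by
  classical
  unfold wB
  refine div_nonneg (Finset.sum_nonneg (fun n _ => ?_)) (by positivity)
  split_ifs <;> norm_num

theorem wB_univ (B : ℕ) : wB r Set.univ B = 1 := by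
  classical
  unfold wB
  have h : (primorial B : ℝ) ≠ 0 := by
    have := primorial_pos B
    exact_mod_cast this.ne'
  simp [h]

theorem wB_finset (F : Finset (Set ι)) (B : ℕ) :
    wB r (F : Set (Set ι)) B = ∑ S ∈ F, wB r {S} B := by
  classical
  unfold wB
  rw [← Finset.sum_div, Finset.sum_comm]
  congr 1
  refine Finset.sum_congr rfl (fun n _ => ?_)
  simp

open Classical in
/-- the values of the truncated set -/
noncomputable def FB (r : ι → ℕ) (B : ℕ) : Finset (Set ι) :=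
  (Finset.range (primorial B)).image (fun n => EB r B (n + 1))

theorem wB_FB (𝒮 : Set (Set ι)) (B : ℕ) : wB r (𝒮 ∩ (FB r B : Set (Set ι))) B = wB r 𝒮 B := by
  classical
  unfold wB
  congr 1
  refine Finset.sum_congr rfl (fun n hn => ?_)
  have : EB r B (n + 1) ∈ (FB r B : Set (Set ι)) := by
    rw [Finset.mem_coe, FB, Finset.mem_image]
    exact ⟨n, hn, rfl⟩
  simp [this]

end

/-- the law of the set -/
theorem law {ι : Type*} (r : ι → ℕ) (hsq : ∀ i, Squarefree (r i)) (C δ : ℝ) (hC : 0 < C)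
    (hδ : 0 < δ) (hδ1 : δ ≤ 1 / 2) (hT : Thin r C δ) :
    ∃ w : Set ι → ℝ, (∀ S, 0 ≤ w S) ∧ HasSum w 1 ∧ ∃ D : ℝ, 0 < D ∧
      ∀ (𝒮 : Set (Set ι)) (X : ℝ), 1 ≤ X →
        |cn r 𝒮 X - X * ∑' S, 𝒮.indicator w S| ≤
          D * X * Real.exp (-(δ * Real.sqrt (Real.log X))) := by
  classical
  obtain ⟨D, hD, hbig⟩ := big r C δ hC hδ hT
  have h : ∀ (𝒮 : Set (Set ι)) (B : ℕ), 1 ≤ B → ∀ X : ℝ, 1 ≤ X →
      |cn r 𝒮 X - cB r 𝒮 B X| ≤ D * X * (B : ℝ) ^ (-δ) := fun 𝒮 B hB X hX =>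
    K0' hsq D δ hbig 𝒮 B hB X hX
  -- the limit
  have hlim : Tendsto (fun n : ℕ => D * ((n + 1 : ℕ) : ℝ) ^ (-δ)) atTop (𝓝 0) := by
    have h1 : Tendsto (fun x : ℝ => x ^ (-δ)) atTop (𝓝 0) := tendsto_rpow_neg_atTop hδ
    have h2 : Tendsto (fun n : ℕ => ((n + 1 : ℕ) : ℝ)) atTop atTop :=
      tendsto_natCast_atTop_atTop.comp (tendsto_add_atTop_nat 1)
    have h3 := (h1.comp h2).const_mul D
    simpa using h3
  have hC : ∀ 𝒮 : Set (Set ι), CauchySeq (fun n : ℕ => wB r 𝒮 (n + 1)) := by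
    intro 𝒮
    refine cauchySeq_of_le_tendsto_0 (fun n : ℕ => D * ((n + 1 : ℕ) : ℝ) ^ (-δ) +
      D * ((n + 1 : ℕ) : ℝ) ^ (-δ)) ?_ (by simpa using hlim.add hlim)
    intro n m N hn hm
    rw [Real.dist_eq]
    refine (K2 D δ h 𝒮 (n + 1) (m + 1) (by omega) (by omega)).trans ?_
    have h1 : ∀ a : ℕ, N ≤ a → ((a + 1 : ℕ) : ℝ) ^ (-δ) ≤ ((N + 1 : ℕ) : ℝ) ^ (-δ) := by
      intro a ha
      refine Real.rpow_le_rpow_of_nonpos (by positivity) ?_ (by linarith)
      exact_mod_cast Nat.succ_le_succ ha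
    have h2 := mul_le_mul_of_nonneg_left (h1 n hn) hD.le
    have h3 := mul_le_mul_of_nonneg_left (h1 m hm) hD.le
    linarith
  choose W hW using fun 𝒮 : Set (Set ι) => cauchySeq_tendsto_of_complete (hC 𝒮)
  have hWB : ∀ (𝒮 : Set (Set ι)) (B : ℕ), 1 ≤ B → |wB r 𝒮 B - W 𝒮| ≤ D * (B : ℝ) ^ (-δ) := by
    intro 𝒮 B hB
    have h1 : Tendsto (fun n : ℕ => |wB r 𝒮 B - wB r 𝒮 (n + 1)|) atTop (𝓝 |wB r 𝒮 B - W 𝒮|) :=
      (tendsto_const_nhds.sub (hW 𝒮)).abs
    have h2 : Tendsto (fun n : ℕ => D * (B : ℝ) ^ (-δ) + D * ((n + 1 : ℕ) : ℝ) ^ (-δ)) atTop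
        (𝓝 (D * (B : ℝ) ^ (-δ) + 0)) := tendsto_const_nhds.add hlim
    rw [add_zero] at h2
    exact le_of_tendsto_of_tendsto' h1 h2 (fun n => K2 D δ h 𝒮 B (n + 1) hB (by omega))
  have hmono : ∀ 𝒮 𝒯 : Set (Set ι), 𝒮 ⊆ 𝒯 → W 𝒮 ≤ W 𝒯 := fun 𝒮 𝒯 hST =>
    le_of_tendsto_of_tendsto' (hW 𝒮) (hW 𝒯) (fun n => wB_mono hST (n + 1))
  have hnn : ∀ 𝒮 : Set (Set ι), 0 ≤ W 𝒮 := fun 𝒮 => ge_of_tendsto' (hW 𝒮)
    (fun n => wB_nonneg 𝒮 (n + 1))
  have huniv : W Set.univ = 1 := by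
    refine tendsto_nhds_unique (hW Set.univ) ?_
    simp only [wB_univ]
    exact tendsto_const_nhds
  have hfin : ∀ F : Finset (Set ι), W (F : Set (Set ι)) = ∑ S ∈ F, W {S} := by
    intro F
    refine tendsto_nhds_unique (hW F) ?_
    have h1 : Tendsto (fun n : ℕ => ∑ S ∈ F, wB r {S} (n + 1)) atTop (𝓝 (∑ S ∈ F, W {S})) :=
      tendsto_finsetSum F (fun S _ => hW {S})
    refine h1.congr (fun n => (wB_finset F (n + 1)).symm)
  set w : Set ι → ℝ := fun S => W {S} with hw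
  have hsum : ∀ 𝒮 : Set (Set ι), HasSum (fun S => 𝒮.indicator w S) (W 𝒮) := by
    intro 𝒮
    refine hasSum_of_isLUB_of_nonneg _ (fun S => Set.indicator_nonneg (fun S _ => hnn {S}) S) ?_
    have hF : ∀ F : Finset (Set ι), ∑ S ∈ F, 𝒮.indicator w S = W (𝒮 ∩ (F : Set (Set ι))) := by
      intro F
      have e : 𝒮 ∩ (F : Set (Set ι)) = ((F.filter (fun S => S ∈ 𝒮) : Finset (Set ι)) :
          Set (Set ι)) := by
        ext S
        simp [and_comm]
      rw [e, hfin, Finset.sum_filter]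
      refine Finset.sum_congr rfl (fun S _ => ?_)
      by_cases hS : S ∈ 𝒮
      · rw [if_pos hS, Set.indicator_of_mem hS]
      · rw [if_neg hS, Set.indicator_of_notMem hS]
    constructor
    · rintro _ ⟨F, rfl⟩
      simp only []
      rw [hF]
      exact hmono _ _ Set.inter_subset_left
    · intro b hb
      have h1 : ∀ n : ℕ, W 𝒮 ≤ b + (D * ((n + 1 : ℕ) : ℝ) ^ (-δ) +
          D * ((n + 1 : ℕ) : ℝ) ^ (-δ)) := by
        intro n
        have h2 := hWB 𝒮 (n + 1) (by omega)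
        have h3 := hWB (𝒮 ∩ (FB r (n + 1) : Set (Set ι))) (n + 1) (by omega)
        rw [wB_FB] at h3
        have h4 : W (𝒮 ∩ (FB r (n + 1) : Set (Set ι))) ≤ b := by
          rw [← hF]
          exact hb ⟨_, rfl⟩
        rw [abs_le] at h2 h3
        linarith [h2.1, h3.2]
      have h2 : Tendsto (fun n : ℕ => b + (D * ((n + 1 : ℕ) : ℝ) ^ (-δ) +
          D * ((n + 1 : ℕ) : ℝ) ^ (-δ))) atTop (𝓝 (b + (0 + 0))) :=
        tendsto_const_nhds.add (hlim.add hlim)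
      simp only [add_zero] at h2
      exact ge_of_tendsto' h2 h1
  obtain ⟨c, hc, hmer⟩ := Pool.Agent.H38.RB.MER
  set K : ℝ := Real.exp (6 * c) * 46080 + 4 * D + 2 * Real.exp (2 * δ) with hK
  have hK0 : 0 < K := by positivity
  have hW1 : ∀ 𝒮 : Set (Set ι), W 𝒮 ≤ 1 := fun 𝒮 => by
    rw [← huniv]
    exact hmono _ _ (Set.subset_univ _)
  refine ⟨w, fun S => hnn {S}, ?_, K, hK0, ?_⟩
  · have h1 := hsum Set.univ
    rw [huniv] at h1
    simpa using h1
  intro 𝒮 X hX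
  rw [(hsum 𝒮).tsum_eq]
  have hX0 : 0 < X := by linarith
  have hlog : 0 ≤ Real.log X := Real.log_nonneg hX
  set L : ℝ := Real.sqrt (Real.log X) with hL
  have hL0 : 0 ≤ L := Real.sqrt_nonneg _
  have hLL : L * L = Real.log X := Real.mul_self_sqrt hlog
  rcases le_or_gt L 2 with hL2 | hL2
  · -- small `X`
    have h1 : |cn r 𝒮 X| ≤ X := by
      unfold cn
      rw [abs_of_nonneg (Finset.sum_nonneg (fun n _ => by split_ifs <;> norm_num))]
      calc ∑ n ∈ Finset.range ⌊X⌋₊, (if EE r (n + 1) ∈ 𝒮 then (1 : ℝ) else 0)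
          ≤ ∑ n ∈ Finset.range ⌊X⌋₊, (1 : ℝ) :=
            Finset.sum_le_sum (fun n _ => by split_ifs <;> norm_num)
        _ = (⌊X⌋₊ : ℝ) := by simp
        _ ≤ X := Nat.floor_le hX0.le
    have h2 : |X * W 𝒮| ≤ X := by
      rw [abs_of_nonneg (mul_nonneg hX0.le (hnn 𝒮))]
      calc X * W 𝒮 ≤ X * 1 := mul_le_mul_of_nonneg_left (hW1 𝒮) hX0.le
        _ = X := mul_one X
    have h3 : |cn r 𝒮 X - X * W 𝒮| ≤ 2 * X := (abs_sub _ _).trans (by linarith)
    have h4 : 1 ≤ Real.exp (2 * δ) * Real.exp (-(δ * L)) := by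
      rw [← Real.exp_add]
      refine Real.one_le_exp ?_
      nlinarith
    have h5 : 0 < Real.exp (-(δ * L)) := Real.exp_pos _
    calc |cn r 𝒮 X - X * W 𝒮| ≤ 2 * X := h3
      _ ≤ 2 * X * (Real.exp (2 * δ) * Real.exp (-(δ * L))) :=
          le_mul_of_one_le_right (by positivity) h4
      _ = (2 * Real.exp (2 * δ)) * X * Real.exp (-(δ * L)) := by ring
      _ ≤ K * X * Real.exp (-(δ * L)) := by
          have : 2 * Real.exp (2 * δ) ≤ K := by
            have h6 : 0 ≤ Real.exp (6 * c) * 46080 := by positivity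
            have h7 : 0 ≤ 4 * D := by positivity
            rw [hK]
            linarith
          gcongr
  -- large `X`
  have hLpos : 0 < L := by linarith
  set y : ℝ := Real.exp L with hy
  have hy0 : 0 < y := Real.exp_pos _
  have hy2 : 2 ≤ y := by
    have := Real.add_one_le_exp L
    rw [hy]
    linarith
  set B : ℕ := ⌊y⌋₊ with hB
  have hB1 : 1 ≤ B := Nat.le_floor (by push_cast; linarith)
  have hBy : (B : ℝ) ≤ y := Nat.floor_le hy0.le
  have hBy2 : y / 2 ≤ B := by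
    have := Nat.lt_floor_add_one y
    rw [← hB] at this
    linarith
  set σ : ℝ := 1 - 1 / L with hσ
  have hσ0 : 0 ≤ σ := by
    have : 1 / L ≤ 1 := by rw [div_le_one hLpos]; linarith
    linarith
  have hσ1 : σ ≤ 1 := by
    have : 0 ≤ 1 / L := by positivity
    linarith
  have h1 := K0f hsq 𝒮 B X σ hX0 hσ0 hσ1
  have h2 := h 𝒮 B hB1 X hX
  have h3 := hWB 𝒮 B hB1
  -- the first term
  have hXσ : X ^ σ = X * Real.exp (-L) := by
    rw [hσ, Real.rpow_sub hX0, Real.rpow_one, Real.exp_neg, div_eq_mul_inv]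
    congr 2
    rw [Real.rpow_def_of_pos hX0]
    congr 1
    rw [← hLL]
    field_simp
  have hprod : ∏ p ∈ (Finset.range (B + 1)).filter Nat.Prime, (1 + 2 * (p : ℝ) ^ (-σ)) ≤
      Real.exp (6 * c) * L ^ 6 := by
    have h4 : ∀ p ∈ (Finset.range (B + 1)).filter Nat.Prime,
        1 + 2 * (p : ℝ) ^ (-σ) ≤ Real.exp (6 * (1 / (p : ℝ))) := by
      intro p hp
      rw [Finset.mem_filter, Finset.mem_range] at hp
      have hp0 : (0 : ℝ) < p := by exact_mod_cast hp.2.pos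
      have hpB : (p : ℝ) ≤ y := by
        have : p ≤ B := by omega
        exact (Nat.cast_le.mpr this).trans hBy
      have h5 : (p : ℝ) ^ (-σ) ≤ 3 * (1 / (p : ℝ)) := by
        have e1 : (p : ℝ) ^ (-σ) = (p : ℝ) ^ (1 / L) * (1 / (p : ℝ)) := by
          have e2 : -σ = 1 / L - 1 := by rw [hσ]; ring
          rw [e2, Real.rpow_sub hp0, Real.rpow_one]
          ring
        rw [e1]
        refine mul_le_mul_of_nonneg_right ?_ (by positivity)
        have h6 : Real.log p ≤ L := by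
          calc Real.log p ≤ Real.log y := Real.log_le_log hp0 hpB
            _ = L := by rw [hy, Real.log_exp]
        calc (p : ℝ) ^ (1 / L) = Real.exp (Real.log p * (1 / L)) := Real.rpow_def_of_pos hp0 _
          _ ≤ Real.exp 1 := by
              refine Real.exp_le_exp.mpr ?_
              rw [mul_one_div, div_le_one hLpos]
              exact h6
          _ ≤ 3 := by
              have := Real.exp_one_lt_d9
              linarith
      calc 1 + 2 * (p : ℝ) ^ (-σ) ≤ 6 * (1 / (p : ℝ)) + 1 := by linarith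
        _ ≤ Real.exp (6 * (1 / (p : ℝ))) := Real.add_one_le_exp _
    calc ∏ p ∈ (Finset.range (B + 1)).filter Nat.Prime, (1 + 2 * (p : ℝ) ^ (-σ))
        ≤ ∏ p ∈ (Finset.range (B + 1)).filter Nat.Prime, Real.exp (6 * (1 / (p : ℝ))) :=
          Finset.prod_le_prod (fun p _ => by positivity) h4
      _ = Real.exp (6 * ∑ p ∈ (Finset.range (B + 1)).filter Nat.Prime, 1 / (p : ℝ)) := by
          rw [← Real.exp_sum, Finset.mul_sum]
      _ = Real.exp (6 * ∑ p ∈ (Finset.Icc 1 ⌊y⌋₊).filter Nat.Prime, 1 / (p : ℝ)) := by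
          congr 3
          ext p
          simp only [Finset.mem_filter, Finset.mem_range, Finset.mem_Icc, ← hB]
          constructor
          · rintro ⟨h5, h6⟩
            exact ⟨⟨h6.one_lt.le, by omega⟩, h6⟩
          · rintro ⟨⟨h5, h6⟩, h7⟩
            exact ⟨by omega, h7⟩
      _ ≤ Real.exp (6 * (Real.log L + c)) := by
          refine Real.exp_le_exp.mpr (mul_le_mul_of_nonneg_left ?_ (by norm_num))
          have h5 := hmer y hy2
          have h6 : Real.log y = L := by rw [hy, Real.log_exp]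
          rw [h6] at h5
          exact h5
      _ = Real.exp (6 * c) * L ^ 6 := by
          rw [mul_add, Real.exp_add, mul_comm]
          congr 1
          have : Real.exp (6 * Real.log L) = L ^ (6 : ℝ) := by
            rw [Real.rpow_def_of_pos hLpos]
            congr 1
            ring
          rw [this]
          norm_cast
  have hL6 : L ^ 6 ≤ 46080 * Real.exp (L / 2) := by
    have h4 := Real.pow_div_factorial_le_exp (L / 2) (by positivity) 6
    have h5 : (L / 2) ^ 6 / (Nat.factorial 6 : ℝ) = L ^ 6 / 46080 := by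
      have : (Nat.factorial 6 : ℝ) = 720 := by norm_num [Nat.factorial]
      rw [this]
      ring
    rw [h5, div_le_iff₀ (by norm_num)] at h4
    linarith
  have hfirst : X ^ σ * ∏ p ∈ (Finset.range (B + 1)).filter Nat.Prime, (1 + 2 * (p : ℝ) ^ (-σ)) ≤
      Real.exp (6 * c) * 46080 * X * Real.exp (-(δ * L)) := by
    calc X ^ σ * ∏ p ∈ (Finset.range (B + 1)).filter Nat.Prime, (1 + 2 * (p : ℝ) ^ (-σ))
        ≤ X ^ σ * (Real.exp (6 * c) * L ^ 6) :=
          mul_le_mul_of_nonneg_left hprod (by positivity)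
      _ ≤ X ^ σ * (Real.exp (6 * c) * (46080 * Real.exp (L / 2))) := by gcongr
      _ = Real.exp (6 * c) * 46080 * X * (Real.exp (-L) * Real.exp (L / 2)) := by
          rw [hXσ]
          ring
      _ ≤ Real.exp (6 * c) * 46080 * X * Real.exp (-(δ * L)) := by
          refine mul_le_mul_of_nonneg_left ?_ (by positivity)
          rw [← Real.exp_add]
          refine Real.exp_le_exp.mpr ?_
          have : δ * L ≤ 1 / 2 * L := mul_le_mul_of_nonneg_right hδ1 hL0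
          linarith
  have htail : (B : ℝ) ^ (-δ) ≤ 2 * Real.exp (-(δ * L)) := by
    calc (B : ℝ) ^ (-δ) ≤ (y / 2) ^ (-δ) :=
          Real.rpow_le_rpow_of_nonpos (by positivity) hBy2 (by linarith)
      _ = 2 ^ δ * y ^ (-δ) := by
          rw [Real.div_rpow hy0.le (by norm_num), Real.rpow_neg (by norm_num : (0 : ℝ) ≤ 2),
            div_inv_eq_mul, mul_comm]
      _ = 2 ^ δ * Real.exp (-(δ * L)) := by
          congr 1
          rw [hy, ← Real.exp_mul]
          congr 1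
          ring
      _ ≤ 2 * Real.exp (-(δ * L)) := by
          refine mul_le_mul_of_nonneg_right ?_ (Real.exp_pos _).le
          calc (2 : ℝ) ^ δ ≤ 2 ^ (1 : ℝ) :=
                Real.rpow_le_rpow_of_exponent_le (by norm_num) (by linarith)
            _ = 2 := Real.rpow_one 2
  have hsplit : |cn r 𝒮 X - X * W 𝒮| ≤
      Real.exp (6 * c) * 46080 * X * Real.exp (-(δ * L)) + 2 * (D * X * (B : ℝ) ^ (-δ)) := by
    calc |cn r 𝒮 X - X * W 𝒮| = |(cB r 𝒮 B X - X * wB r 𝒮 B) + (cn r 𝒮 X - cB r 𝒮 B X) +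
          X * (wB r 𝒮 B - W 𝒮)| := by congr 1; ring
      _ ≤ |cB r 𝒮 B X - X * wB r 𝒮 B| + |cn r 𝒮 X - cB r 𝒮 B X| +
          |X * (wB r 𝒮 B - W 𝒮)| := abs_add_three _ _ _
      _ ≤ Real.exp (6 * c) * 46080 * X * Real.exp (-(δ * L)) + D * X * (B : ℝ) ^ (-δ) +
          X * (D * (B : ℝ) ^ (-δ)) := by
          refine add_le_add (add_le_add (h1.trans hfirst) h2) ?_
          rw [abs_mul, abs_of_pos hX0]
          exact mul_le_mul_of_nonneg_left h3 hX0.le
      _ = _ := by ring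
  calc |cn r 𝒮 X - X * W 𝒮| ≤
      Real.exp (6 * c) * 46080 * X * Real.exp (-(δ * L)) + 2 * (D * X * (B : ℝ) ^ (-δ)) := hsplit
    _ ≤ Real.exp (6 * c) * 46080 * X * Real.exp (-(δ * L)) +
        2 * (D * X * (2 * Real.exp (-(δ * L)))) := by gcongr
    _ = (Real.exp (6 * c) * 46080 + 4 * D) * X * Real.exp (-(δ * L)) := by ring
    _ ≤ K * X * Real.exp (-(δ * L)) := by
        have : Real.exp (6 * c) * 46080 + 4 * D ≤ K := by
          have h6 : 0 ≤ 2 * Real.exp (2 * δ) := by positivity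
          rw [hK]
          linarith
        gcongr

end Pool.Agent.H38.UE
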