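import Mathlib

/-!
# Mean values of the number of divisors of a given kind
-/

set_option autoImplicit false

open Finset

namespace Pool.Agent.H38.UE

/-- the number of the `f` with `l f ≤ Z` is at most `C Z ^ (1 - δ)` -/
def Thin {κ : Type*} (l : κ → ℕ) (C δ : ℝ) : Prop :=
  ∀ Z : ℝ, 1 ≤ Z → {f | (l f : ℝ) ≤ Z}.Finite ∧ ({f | (l f : ℝ) ≤ Z}.ncard : ℝ) ≤ C * Z ^ (1 - δ)

theorem tail {κ : Type*} (l : κ → ℕ) (C δ : ℝ) (hC : 0 < C) (hδ : 0 < δ)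
    (h : Thin l C δ) :
    ∃ D : ℝ, 0 < D ∧ ∀ (Z : ℝ) (F : Finset κ), 1 ≤ Z → (∀ f ∈ F, Z ≤ (l f : ℝ)) →
      ∑ f ∈ F, ((l f : ℝ))⁻¹ ≤ D * Z ^ (-δ) := by
  classical
  set q : ℝ := (2 : ℝ) ^ (-δ) with hq
  have hq0 : 0 < q := Real.rpow_pos_of_pos (by norm_num) _
  have hq1 : q < 1 := Real.rpow_lt_one_of_one_lt_of_neg (by norm_num) (by linarith)
  set B : ℝ := C * (2 : ℝ) ^ (1 - δ) with hB
  have hB0 : 0 < B := by positivity
  refine ⟨B * (1 - q)⁻¹, by have : 0 < 1 - q := by linarith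
                            positivity, ?_⟩
  intro Z F hZ hF
  have hZ0 : 0 < Z := by linarith
  set g : κ → ℕ := fun f => Nat.log 2 ⌊(l f : ℝ) / Z⌋₊ with hg
  have hg1 : ∀ f ∈ F, (2 : ℝ) ^ (g f) * Z ≤ (l f : ℝ) ∧ (l f : ℝ) ≤ (2 : ℝ) ^ (g f + 1) * Z := by
    intro f hf
    have h1 : 1 ≤ (l f : ℝ) / Z := by rw [le_div_iff₀ hZ0]; linarith [hF f hf]
    have h2 : ⌊(l f : ℝ) / Z⌋₊ ≠ 0 := by
      have := Nat.floor_pos.mpr h1
      omega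
    have h3 : 2 ^ (g f) ≤ ⌊(l f : ℝ) / Z⌋₊ := Nat.pow_log_le_self 2 h2
    have h4 : ⌊(l f : ℝ) / Z⌋₊ < 2 ^ (g f + 1) := Nat.lt_pow_succ_log_self (by norm_num) _
    constructor
    · have h5 : ((2 ^ (g f) : ℕ) : ℝ) ≤ (l f : ℝ) / Z :=
        (Nat.cast_le.mpr h3).trans (Nat.floor_le (by positivity))
      push_cast at h5
      rwa [le_div_iff₀ hZ0] at h5
    · have h5 : (l f : ℝ) / Z < (⌊(l f : ℝ) / Z⌋₊ : ℝ) + 1 := Nat.lt_floor_add_one _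
      have h6 : ((⌊(l f : ℝ) / Z⌋₊ : ℝ)) + 1 ≤ ((2 ^ (g f + 1) : ℕ) : ℝ) := by exact_mod_cast h4
      push_cast at h6
      have h7 : (l f : ℝ) / Z ≤ (2 : ℝ) ^ (g f + 1) := by linarith
      rwa [div_le_iff₀ hZ0] at h7
  have hfib : ∀ j ∈ F.image g, ∑ f ∈ F.filter (fun f => g f = j), ((l f : ℝ))⁻¹ ≤
      B * Z ^ (-δ) * q ^ j := by
    intro j _
    have hp : (1 : ℝ) ≤ (2 : ℝ) ^ (j + 1) * Z := by
      have : (1 : ℝ) ≤ (2 : ℝ) ^ (j + 1) := one_le_pow₀ (by norm_num)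
      nlinarith
    obtain ⟨hfin, hcard⟩ := h ((2 : ℝ) ^ (j + 1) * Z) hp
    have h1 : ((F.filter (fun f => g f = j)).card : ℝ) ≤ C * ((2 : ℝ) ^ (j + 1) * Z) ^ (1 - δ) := by
      refine le_trans ?_ hcard
      have e1 : (F.filter (fun f => g f = j)).card =
          ((F.filter (fun f => g f = j) : Finset κ) : Set κ).ncard := (Set.ncard_coe_finset _).symm
      have hsub : ((F.filter (fun f => g f = j) : Finset κ) : Set κ) ⊆
          {f | (l f : ℝ) ≤ (2 : ℝ) ^ (j + 1) * Z} := by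
        intro f hf
        rw [Finset.mem_coe, Finset.mem_filter] at hf
        have := (hg1 f hf.1).2
        rw [hf.2] at this
        exact this
      rw [e1]
      exact_mod_cast Set.ncard_le_ncard hsub hfin
    have h2 : ∀ f ∈ F.filter (fun f => g f = j), ((l f : ℝ))⁻¹ ≤ ((2 : ℝ) ^ j * Z)⁻¹ := by
      intro f hf
      rw [Finset.mem_filter] at hf
      have := (hg1 f hf.1).1
      rw [hf.2] at this
      exact inv_anti₀ (by positivity) this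
    calc ∑ f ∈ F.filter (fun f => g f = j), ((l f : ℝ))⁻¹
        ≤ ∑ f ∈ F.filter (fun f => g f = j), ((2 : ℝ) ^ j * Z)⁻¹ := Finset.sum_le_sum h2
      _ = ((F.filter (fun f => g f = j)).card : ℝ) * ((2 : ℝ) ^ j * Z)⁻¹ := by simp
      _ ≤ C * ((2 : ℝ) ^ (j + 1) * Z) ^ (1 - δ) * ((2 : ℝ) ^ j * Z)⁻¹ := by gcongr
      _ = B * Z ^ (-δ) * q ^ j := by
          have e0 : (2 : ℝ) ^ (j + 1) * Z = 2 * ((2 : ℝ) ^ j * Z) := by ring
          have hW : 0 < (2 : ℝ) ^ j * Z := by positivity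
          rw [e0, Real.mul_rpow (by norm_num) hW.le, hB]
          have e1 : ((2 : ℝ) ^ j * Z) ^ (1 - δ) * ((2 : ℝ) ^ j * Z)⁻¹ = ((2 : ℝ) ^ j * Z) ^ (-δ) := by
            rw [← Real.rpow_neg_one ((2 : ℝ) ^ j * Z), ← Real.rpow_add hW]
            congr 1
            ring
          have e2 : ((2 : ℝ) ^ j * Z) ^ (-δ) = q ^ j * Z ^ (-δ) := by
            rw [Real.mul_rpow (by positivity) hZ0.le, hq, ← Real.rpow_natCast, ← Real.rpow_natCast,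
              ← Real.rpow_mul (by norm_num), ← Real.rpow_mul (by norm_num)]
            congr 2
            ring
          calc C * (2 ^ (1 - δ) * ((2 : ℝ) ^ j * Z) ^ (1 - δ)) * ((2 : ℝ) ^ j * Z)⁻¹
              = C * 2 ^ (1 - δ) * (((2 : ℝ) ^ j * Z) ^ (1 - δ) * ((2 : ℝ) ^ j * Z)⁻¹) := by ring
            _ = _ := by rw [e1, e2]; ring
  rw [← Finset.sum_fiberwise_of_maps_to (g := g) (t := F.image g)
    (fun f hf => Finset.mem_image_of_mem g hf)]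
  have hZδ : 0 ≤ Z ^ (-δ) := Real.rpow_nonneg hZ0.le _
  calc ∑ j ∈ F.image g, ∑ f ∈ F.filter (fun f => g f = j), ((l f : ℝ))⁻¹
      ≤ ∑ j ∈ F.image g, B * Z ^ (-δ) * q ^ j := Finset.sum_le_sum hfib
    _ = B * Z ^ (-δ) * ∑ j ∈ F.image g, q ^ j := by rw [Finset.mul_sum]
    _ ≤ B * Z ^ (-δ) * (1 - q)⁻¹ := by
        refine mul_le_mul_of_nonneg_left ?_ (by positivity)
        rw [← tsum_geometric_of_lt_one hq0.le hq1]
        exact (summable_geometric_of_lt_one hq0.le hq1).sum_le_tsum _ (fun _ _ => by positivity)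
    _ = B * (1 - q)⁻¹ * Z ^ (-δ) := by ring

theorem mean {κ : Type*} (l : κ → ℕ) (C δ : ℝ) (hC : 0 < C) (hδ : 0 < δ)
    (hl : ∀ f, 1 ≤ l f) (h : Thin l C δ) :
    Summable (fun f => ((l f : ℝ))⁻¹) ∧ ∃ D : ℝ, 0 < D ∧ ∀ X : ℝ, 1 ≤ X →
      |∑ N ∈ Finset.Icc 1 ⌊X⌋₊, (({f | l f ∣ N}.ncard : ℕ) : ℝ) - X * ∑' f, ((l f : ℝ))⁻¹| ≤
        D * X ^ (1 - δ) := by
  classical
  obtain ⟨D, hD, hT⟩ := tail l C δ hC hδ h
  have hnn : ∀ f, 0 ≤ ((l f : ℝ))⁻¹ := fun f => by positivity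
  have hsum : Summable (fun f => ((l f : ℝ))⁻¹) := by
    refine summable_of_sum_le hnn (c := D * 1 ^ (-δ)) (fun F => ?_)
    exact hT 1 F le_rfl (fun f _ => by exact_mod_cast hl f)
  refine ⟨hsum, C + D, by positivity, ?_⟩
  intro X hX
  have hX0 : 0 < X := by linarith
  obtain ⟨hfin, hcard⟩ := h X hX
  set S : Finset κ := hfin.toFinset with hS
  have hSm : ∀ f, f ∈ S ↔ (l f : ℝ) ≤ X := fun f => by rw [hS, Set.Finite.mem_toFinset]; rfl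
  have hSc : (S.card : ℝ) ≤ C * X ^ (1 - δ) := by
    rw [hS, ← Set.ncard_eq_toFinset_card _ hfin]
    exact hcard
  have e1 : ∀ N ∈ Finset.Icc 1 ⌊X⌋₊, (({f | l f ∣ N}.ncard : ℕ) : ℝ) =
      ∑ f ∈ S, if l f ∣ N then (1 : ℝ) else 0 := by
    intro N hN
    rw [Finset.mem_Icc] at hN
    have : {f | l f ∣ N} = ((S.filter (fun f => l f ∣ N) : Finset κ) : Set κ) := by
      ext f
      rw [Finset.coe_filter, Set.mem_ofPred_eq, Set.mem_ofPred_eq, hSm]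
      constructor
      · intro hd
        refine ⟨?_, hd⟩
        have h1 : l f ≤ N := Nat.le_of_dvd hN.1 hd
        exact (Nat.cast_le.mpr (h1.trans hN.2)).trans (Nat.floor_le hX0.le)
      · exact fun hd => hd.2
    rw [this, Set.ncard_coe_finset, Finset.card_filter]
    push_cast
    rfl
  have e2 : ∑ N ∈ Finset.Icc 1 ⌊X⌋₊, (({f | l f ∣ N}.ncard : ℕ) : ℝ) =
      ∑ f ∈ S, ((⌊X⌋₊ / l f : ℕ) : ℝ) := by
    rw [Finset.sum_congr rfl e1, Finset.sum_comm]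
    refine Finset.sum_congr rfl (fun f _ => ?_)
    have h1 : ∑ N ∈ Finset.Icc 1 ⌊X⌋₊, (if l f ∣ N then (1 : ℝ) else 0) =
        (((Finset.Icc 1 ⌊X⌋₊).filter (fun N => l f ∣ N)).card : ℝ) := by
      rw [Finset.card_filter]
      push_cast
      rfl
    rw [h1]
    congr 1
    have h2 := Nat.Ioc_filter_dvd_card_eq_div ⌊X⌋₊ (l f)
    rw [← h2]
    rfl
  have e3 : |∑ f ∈ S, ((⌊X⌋₊ / l f : ℕ) : ℝ) - X * ∑ f ∈ S, ((l f : ℝ))⁻¹| ≤ (S.card : ℝ) := by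
    rw [Finset.mul_sum, ← Finset.sum_sub_distrib]
    refine (Finset.abs_sum_le_sum_abs _ _).trans ?_
    calc ∑ f ∈ S, |((⌊X⌋₊ / l f : ℕ) : ℝ) - X * ((l f : ℝ))⁻¹| ≤ ∑ f ∈ S, (1 : ℝ) := by
          refine Finset.sum_le_sum (fun f _ => ?_)
          have h1 : (⌊X⌋₊ / l f : ℕ) = ⌊X / (l f : ℝ)⌋₊ := (Nat.floor_div_natCast X (l f)).symm
          rw [h1, ← div_eq_mul_inv]
          have h2 := Nat.floor_le (a := X / (l f : ℝ)) (by positivity)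
          have h3 := Nat.lt_floor_add_one (X / (l f : ℝ))
          rw [abs_le]
          constructor <;> linarith
      _ = (S.card : ℝ) := by simp
  have e4 : |∑ f ∈ S, ((l f : ℝ))⁻¹ - ∑' f, ((l f : ℝ))⁻¹| ≤ D * X ^ (-δ) := by
    have h1 : ∑ f ∈ S, ((l f : ℝ))⁻¹ ≤ ∑' f, ((l f : ℝ))⁻¹ := hsum.sum_le_tsum S (fun f _ => hnn f)
    have h2 : ∑' f, ((l f : ℝ))⁻¹ ≤ ∑ f ∈ S, ((l f : ℝ))⁻¹ + D * X ^ (-δ) := by
      refine hsum.tsum_le_of_sum_le (fun F => ?_)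
      have h3 : ∑ f ∈ F, ((l f : ℝ))⁻¹ ≤ ∑ f ∈ S ∪ F \ S, ((l f : ℝ))⁻¹ := by
        refine Finset.sum_le_sum_of_subset_of_nonneg ?_ (fun f _ _ => hnn f)
        intro f hf
        rw [Finset.mem_union, Finset.mem_sdiff]
        by_cases hfS : f ∈ S
        · exact Or.inl hfS
        · exact Or.inr ⟨hf, hfS⟩
      rw [Finset.sum_union Finset.disjoint_sdiff] at h3
      have h4 := hT X (F \ S) hX (fun f hf => by
        rw [Finset.mem_sdiff, hSm] at hf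
        exact (not_le.mp hf.2).le)
      linarith
    rw [abs_le]
    have h5 : 0 ≤ D * X ^ (-δ) := by positivity
    constructor <;> linarith
  rw [e2]
  have hXX : X * X ^ (-δ) = X ^ (1 - δ) := by
    nth_rewrite 1 [← Real.rpow_one X]
    rw [← Real.rpow_add hX0]
    rfl
  calc |∑ f ∈ S, ((⌊X⌋₊ / l f : ℕ) : ℝ) - X * ∑' f, ((l f : ℝ))⁻¹|
      = |(∑ f ∈ S, ((⌊X⌋₊ / l f : ℕ) : ℝ) - X * ∑ f ∈ S, ((l f : ℝ))⁻¹) +
          X * (∑ f ∈ S, ((l f : ℝ))⁻¹ - ∑' f, ((l f : ℝ))⁻¹)| := by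
        congr 1; ring
    _ ≤ |∑ f ∈ S, ((⌊X⌋₊ / l f : ℕ) : ℝ) - X * ∑ f ∈ S, ((l f : ℝ))⁻¹| +
          |X * (∑ f ∈ S, ((l f : ℝ))⁻¹ - ∑' f, ((l f : ℝ))⁻¹)| := abs_add_le _ _
    _ ≤ C * X ^ (1 - δ) + X * (D * X ^ (-δ)) := by
        refine add_le_add (e3.trans hSc) ?_
        rw [abs_mul, abs_of_pos hX0]
        exact mul_le_mul_of_nonneg_left e4 hX0.le
    _ = (C + D) * X ^ (1 - δ) := by rw [← hXX]; ring

end Pool.Agent.H38.UE
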