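import Pool.Agent.H38.UE.Law

/-!
# The moments of the law
-/

set_option autoImplicit false

open Finset Filter Topology

namespace Pool.Agent.H38.UE

theorem tend_law {ι : Type*} (r : ι → ℕ) (𝒮 : Set (Set ι)) (A D δ : ℝ) (hδ : 0 < δ)
    (h : ∀ X : ℝ, 1 ≤ X → |cn r 𝒮 X - X * A| ≤
      D * X * Real.exp (-(δ * Real.sqrt (Real.log X)))) :
    Tendsto (fun n : ℕ => cn r 𝒮 (n : ℝ) / n) atTop (𝓝 A) := by
  have h1 : Tendsto (fun n : ℕ => D * Real.exp (-(δ * Real.sqrt (Real.log (n : ℝ))))) atTop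
      (𝓝 0) := by
    have h3 : Tendsto (fun n : ℕ => δ * Real.sqrt (Real.log (n : ℝ))) atTop atTop :=
      (Real.tendsto_sqrt_atTop.comp
        (Real.tendsto_log_atTop.comp tendsto_natCast_atTop_atTop)).const_mul_atTop hδ
    have h2 := Real.tendsto_exp_neg_atTop_nhds_zero.comp h3
    simpa using h2.const_mul D
  rw [tendsto_iff_dist_tendsto_zero]
  refine squeeze_zero' (Eventually.of_forall (fun n => dist_nonneg)) ?_ h1
  filter_upwards [eventually_ge_atTop 1] with n hn
  have hn2 : (1 : ℝ) ≤ n := by exact_mod_cast hn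
  have hn0 : (0 : ℝ) < n := by linarith
  rw [Real.dist_eq]
  have h4 := h n hn2
  have e : cn r 𝒮 (n : ℝ) / n - A = (cn r 𝒮 (n : ℝ) - n * A) / n := by field_simp
  rw [e, abs_div, abs_of_pos hn0, div_le_iff₀ hn0]
  linarith

theorem tend_mean (g : ℕ → ℝ) (m D δ : ℝ) (hδ : 0 < δ)
    (h : ∀ X : ℝ, 1 ≤ X → |∑ N ∈ Finset.Icc 1 ⌊X⌋₊, g N - X * m| ≤ D * X ^ (1 - δ)) :
    Tendsto (fun n : ℕ => (∑ N ∈ Finset.range n, g (N + 1)) / n) atTop (𝓝 m) := by
  have h1 : Tendsto (fun n : ℕ => D * (n : ℝ) ^ (-δ)) atTop (𝓝 0) := by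
    have h2 : Tendsto (fun x : ℝ => x ^ (-δ)) atTop (𝓝 0) := tendsto_rpow_neg_atTop hδ
    simpa using (h2.comp tendsto_natCast_atTop_atTop).const_mul D
  rw [tendsto_iff_dist_tendsto_zero]
  refine squeeze_zero' (Eventually.of_forall (fun n => dist_nonneg)) ?_ h1
  filter_upwards [eventually_ge_atTop 1] with n hn
  have hn1 : (1 : ℝ) ≤ n := by exact_mod_cast hn
  have hn0 : (0 : ℝ) < n := by linarith
  rw [Real.dist_eq]
  have h4 := h n hn1
  rw [Nat.floor_natCast] at h4
  have e0 : ∑ N ∈ Finset.Icc 1 n, g N = ∑ N ∈ Finset.range n, g (N + 1) := by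
    rw [Finset.range_eq_Ico, Finset.sum_Ico_add' g 0 n 1]
    rfl
  rw [e0] at h4
  have e : (∑ N ∈ Finset.range n, g (N + 1)) / n - m =
      (∑ N ∈ Finset.range n, g (N + 1) - n * m) / n := by field_simp
  have e1 : D * (n : ℝ) ^ (1 - δ) = D * (n : ℝ) ^ (-δ) * n := by
    rw [mul_assoc]
    congr 1
    nth_rewrite 3 [← Real.rpow_one (n : ℝ)]
    rw [← Real.rpow_add hn0]
    congr 1
    ring
  rw [e, abs_div, abs_of_pos hn0, div_le_iff₀ hn0, ← e1]
  exact h4

theorem moment_eq {ι : Type*} (r : ι → ℕ) (w : Set ι → ℝ) (hw0 : ∀ S, 0 ≤ w S)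
    (hs : Summable w)
    (hlaw : ∀ 𝒮 : Set (Set ι), Tendsto (fun n : ℕ => cn r 𝒮 (n : ℝ) / n) atTop
      (𝓝 (∑' S, 𝒮.indicator w S)))
    (k : ℕ) (m m' : ℝ)
    (hm : Tendsto (fun n : ℕ => (∑ N ∈ Finset.range n, ((EE r (N + 1)).ncard : ℝ) ^ k) / n) atTop
      (𝓝 m))
    (hm' : Tendsto (fun n : ℕ => (∑ N ∈ Finset.range n, ((EE r (N + 1)).ncard : ℝ) ^ (k + 1)) / n)
      atTop (𝓝 m')) :
    HasSum (fun S => w S * (S.ncard : ℝ) ^ k) m := by
  classical
  have hnn : ∀ S : Set ι, 0 ≤ w S * (S.ncard : ℝ) ^ k := fun S => mul_nonneg (hw0 S) (by positivity)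
  refine hasSum_of_isLUB_of_nonneg _ hnn ?_
  have hcn : ∀ (𝒮 : Set (Set ι)) (n : ℕ), cn r 𝒮 (n : ℝ) =
      ∑ N ∈ Finset.range n, if EE r (N + 1) ∈ 𝒮 then (1 : ℝ) else 0 := by
    intro 𝒮 n
    unfold cn
    rw [Nat.floor_natCast]
  constructor
  · rintro _ ⟨F, rfl⟩
    have h1 : Tendsto (fun n : ℕ => ∑ S ∈ F, (cn r {S} (n : ℝ) / n) * (S.ncard : ℝ) ^ k) atTop
        (𝓝 (∑ S ∈ F, w S * (S.ncard : ℝ) ^ k)) := by
      refine tendsto_finsetSum F (fun S _ => ?_)
      have h2 := hlaw {S}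
      have h3 : ∑' T, ({S} : Set (Set ι)).indicator w T = w S := by
        rw [tsum_eq_single S (fun T hT => by simp [hT])]
        simp
      rw [h3] at h2
      exact h2.mul_const _
    refine le_of_tendsto_of_tendsto' h1 hm (fun n => ?_)
    have h4 : ∑ S ∈ F, (cn r {S} (n : ℝ) / n) * (S.ncard : ℝ) ^ k =
        (∑ N ∈ Finset.range n, ∑ S ∈ F,
          (if EE r (N + 1) ∈ ({S} : Set (Set ι)) then (1 : ℝ) else 0) * (S.ncard : ℝ) ^ k) / n := by
      rw [Finset.sum_comm, Finset.sum_div]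
      refine Finset.sum_congr rfl (fun S _ => ?_)
      rw [hcn, ← Finset.sum_mul, div_mul_eq_mul_div]
      congr!
    rw [h4]
    refine div_le_div_of_nonneg_right (Finset.sum_le_sum (fun N _ => ?_)) (by positivity)
    calc ∑ S ∈ F, (if EE r (N + 1) ∈ ({S} : Set (Set ι)) then (1 : ℝ) else 0) * (S.ncard : ℝ) ^ k
        = ∑ S ∈ F, (if S = EE r (N + 1) then ((EE r (N + 1)).ncard : ℝ) ^ k else 0) := by
          refine Finset.sum_congr rfl (fun S _ => ?_)
          by_cases hS : S = EE r (N + 1)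
          · simp [hS]
          · have hS' : ¬ EE r (N + 1) ∈ ({S} : Set (Set ι)) := fun h => hS h.symm
            rw [if_neg hS', if_neg hS, zero_mul]
      _ ≤ ((EE r (N + 1)).ncard : ℝ) ^ k := by
          rw [Finset.sum_ite_eq' F (EE r (N + 1))]
          split_ifs
          · exact le_rfl
          · positivity
  · intro b hb
    have hfin : ∀ F : Finset (Set ι), ∑ S ∈ F, w S * (S.ncard : ℝ) ^ k ≤ b := fun F => hb ⟨F, rfl⟩
    have hJ : ∀ J : ℕ, m ≤ b + (((J + 1 : ℕ) : ℝ))⁻¹ * m' := by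
      intro J
      set A : ℕ → ℝ := fun j => ∑' S, ({S : Set ι | S.ncard = j}).indicator w S with hA
      have h1 : Tendsto (fun n : ℕ => ∑ j ∈ Finset.range (J + 1),
          (cn r {S : Set ι | S.ncard = j} (n : ℝ) / n) * (j : ℝ) ^ k +
          (((J + 1 : ℕ) : ℝ))⁻¹ *
            ((∑ N ∈ Finset.range n, ((EE r (N + 1)).ncard : ℝ) ^ (k + 1)) / n)) atTop
          (𝓝 (∑ j ∈ Finset.range (J + 1), A j * (j : ℝ) ^ k + (((J + 1 : ℕ) : ℝ))⁻¹ * m')) := by
        refine Tendsto.add (tendsto_finsetSum _ (fun j _ => ?_)) (hm'.const_mul _)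
        exact (hlaw _).mul_const _
      have h2 : m ≤ ∑ j ∈ Finset.range (J + 1), A j * (j : ℝ) ^ k +
          (((J + 1 : ℕ) : ℝ))⁻¹ * m' := by
        refine le_of_tendsto_of_tendsto' hm h1 (fun n => ?_)
        have h3 : ∑ j ∈ Finset.range (J + 1),
            (cn r {S : Set ι | S.ncard = j} (n : ℝ) / n) * (j : ℝ) ^ k =
            (∑ N ∈ Finset.range n, ∑ j ∈ Finset.range (J + 1),
              (if EE r (N + 1) ∈ {S : Set ι | S.ncard = j} then (1 : ℝ) else 0) * (j : ℝ) ^ k)
              / n := by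
          rw [Finset.sum_comm, Finset.sum_div]
          refine Finset.sum_congr rfl (fun j _ => ?_)
          rw [hcn, ← Finset.sum_mul, div_mul_eq_mul_div]
          congr!
        rw [h3, ← mul_div_assoc, ← add_div, Finset.mul_sum, ← Finset.sum_add_distrib]
        refine div_le_div_of_nonneg_right (Finset.sum_le_sum (fun N _ => ?_)) (by positivity)
        set s : ℕ := (EE r (N + 1)).ncard with hs
        have h4 : ∑ j ∈ Finset.range (J + 1),
            (if EE r (N + 1) ∈ {S : Set ι | S.ncard = j} then (1 : ℝ) else 0) * (j : ℝ) ^ k =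
            ∑ j ∈ Finset.range (J + 1), (if j = s then (s : ℝ) ^ k else 0) := by
          refine Finset.sum_congr rfl (fun j _ => ?_)
          by_cases hj : j = s
          · have : EE r (N + 1) ∈ {S : Set ι | S.ncard = j} := hj.symm
            rw [if_pos this, if_pos hj, hj, one_mul]
          · have : ¬ EE r (N + 1) ∈ {S : Set ι | S.ncard = j} := fun h => hj (Eq.symm h)
            rw [if_neg this, if_neg hj, zero_mul]
        rw [h4, Finset.sum_ite_eq' (Finset.range (J + 1)) s]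
        by_cases hsJ : s ∈ Finset.range (J + 1)
        · rw [if_pos hsJ]
          have : 0 ≤ (((J + 1 : ℕ) : ℝ))⁻¹ * (s : ℝ) ^ (k + 1) := by positivity
          linarith
        · rw [if_neg hsJ, zero_add]
          rw [Finset.mem_range, not_lt] at hsJ
          have h5 : ((J + 1 : ℕ) : ℝ) ≤ s := by exact_mod_cast hsJ
          have h6 : (0 : ℝ) < ((J + 1 : ℕ) : ℝ) := by positivity
          rw [pow_succ, ← div_eq_inv_mul, le_div_iff₀ h6]
          exact mul_le_mul_of_nonneg_left h5 (by positivity)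
      refine h2.trans ?_
      have h7 : ∑ j ∈ Finset.range (J + 1), A j * (j : ℝ) ^ k ≤ b := by
        have h8 : ∀ j ∈ Finset.range (J + 1), Summable (fun S : Set ι =>
            ({S : Set ι | S.ncard = j}).indicator w S * (j : ℝ) ^ k) := fun j _ =>
          (hs.indicator _).mul_right _
        have h9 : ∑ j ∈ Finset.range (J + 1), A j * (j : ℝ) ^ k =
            ∑' S : Set ι, ∑ j ∈ Finset.range (J + 1),
              ({S : Set ι | S.ncard = j}).indicator w S * (j : ℝ) ^ k := by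
          rw [Summable.tsum_finsetSum h8]
          refine Finset.sum_congr rfl (fun j _ => ?_)
          rw [hA, tsum_mul_right]
        rw [h9]
        have h10 : Summable (fun S : Set ι => ∑ j ∈ Finset.range (J + 1),
              ({S : Set ι | S.ncard = j}).indicator w S * (j : ℝ) ^ k) := summable_sum h8
        refine h10.tsum_le_of_sum_le (fun F => ?_)
        refine le_trans (Finset.sum_le_sum (fun S _ => ?_)) (hfin F)
        have h11 : ∑ j ∈ Finset.range (J + 1),
            ({S : Set ι | S.ncard = j}).indicator w S * (j : ℝ) ^ k =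
            ∑ j ∈ Finset.range (J + 1), (if j = S.ncard then w S * (S.ncard : ℝ) ^ k else 0) := by
          refine Finset.sum_congr rfl (fun j _ => ?_)
          by_cases hj : j = S.ncard
          · have : S ∈ {S : Set ι | S.ncard = j} := hj.symm
            rw [Set.indicator_of_mem this, if_pos hj, hj]
          · have : ¬ S ∈ {S : Set ι | S.ncard = j} := fun h => hj (Eq.symm h)
            rw [Set.indicator_of_notMem this, if_neg hj, zero_mul]
        rw [h11, Finset.sum_ite_eq' (Finset.range (J + 1)) S.ncard]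
        split_ifs
        · exact le_rfl
        · exact hnn S
      linarith
    have h12 : Tendsto (fun J : ℕ => b + (((J + 1 : ℕ) : ℝ))⁻¹ * m') atTop (𝓝 (b + 0 * m')) := by
      have h13 : Tendsto (fun J : ℕ => (((J + 1 : ℕ) : ℝ))⁻¹) atTop (𝓝 0) :=
        tendsto_inv_atTop_zero.comp (tendsto_natCast_atTop_atTop.comp (tendsto_add_atTop_nat 1))
      exact tendsto_const_nhds.add (h13.mul_const _)
    rw [zero_mul, add_zero] at h12
    exact ge_of_tendsto' h12 hJ

end Pool.Agent.H38.UE
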