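import Pool.Agent.H38.UE.Mean

/-!
# Tuples: the least common multiples are thin
-/

set_option autoImplicit false

open Finset

namespace Pool.Agent.H38.UE

/-- the least common multiple of the values along a tuple -/
def lc {ι : Type*} (r : ι → ℕ) {k : ℕ} (f : Fin k → ι) : ℕ := Finset.univ.lcm (fun i => r (f i))

theorem lc_dvd {ι : Type*} (r : ι → ℕ) {k : ℕ} (f : Fin k → ι) (N : ℕ) :
    lc r f ∣ N ↔ ∀ i, r (f i) ∣ N := by
  unfold lc
  rw [Finset.lcm_dvd_iff]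
  simp

theorem lc_pos {ι : Type*} (r : ι → ℕ) (hr : ∀ i, 1 ≤ r i) {k : ℕ} (f : Fin k → ι) :
    1 ≤ lc r f := by
  have h : lc r f ∣ ∏ i, r (f i) := by
    rw [lc_dvd]
    exact fun i => Finset.dvd_prod_of_mem _ (Finset.mem_univ i)
  have h2 : 0 < ∏ i, r (f i) := Finset.prod_pos (fun i _ => hr (f i))
  exact Nat.pos_of_dvd_of_pos h h2

theorem lc_le {ι : Type*} (r : ι → ℕ) (hr : ∀ i, 1 ≤ r i) {k : ℕ} (f : Fin k → ι) :
    lc r f ≤ ∏ i, r (f i) := by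
  have h : lc r f ∣ ∏ i, r (f i) := by
    rw [lc_dvd]
    exact fun i => Finset.dvd_prod_of_mem _ (Finset.mem_univ i)
  exact Nat.le_of_dvd (Finset.prod_pos (fun i _ => hr (f i))) h

theorem ncard_dvd_pow {ι : Type*} (r : ι → ℕ) {k : ℕ} (N : ℕ) :
    {f : Fin k → ι | lc r f ∣ N}.ncard = {i | r i ∣ N}.ncard ^ k := by
  have h : {f : Fin k → ι | lc r f ∣ N} = Set.pi Set.univ (fun _ : Fin k => {i | r i ∣ N}) := by
    ext f
    simp [Set.mem_pi, lc_dvd]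
  rw [h]
  rw [← Nat.card_coe_set_eq, ← Nat.card_coe_set_eq]
  rw [Nat.card_congr (Equiv.Set.univPi (fun _ : Fin k => {i | r i ∣ N}))]
  rw [Nat.card_pi]
  simp

open Classical in
/-- the least common multiples of the tuples which have an entry at least `Y` -/
theorem big {ι : Type*} (r : ι → ℕ) (C δ : ℝ) (hC : 0 < C) (hδ : 0 < δ) (h : Thin r C δ) :
    ∃ D : ℝ, 0 < D ∧ ∀ Y Z : ℝ, 1 ≤ Y → 1 ≤ Z →
      (((Finset.Icc 1 ⌊Z⌋₊).filter (fun L => ∃ i, Y ≤ (r i : ℝ) ∧ r i ∣ L)).card : ℝ) ≤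
        D * Z * Y ^ (-δ) := by
  obtain ⟨D, hD, hT⟩ := tail r C δ hC hδ h
  refine ⟨D, hD, ?_⟩
  intro Y Z hY hZ
  have hZ0 : 0 < Z := by linarith
  obtain ⟨hfin, -⟩ := h Z hZ
  set S : Finset ι := hfin.toFinset.filter (fun i => Y ≤ (r i : ℝ)) with hS
  have hSm : ∀ i, i ∈ S ↔ (r i : ℝ) ≤ Z ∧ Y ≤ (r i : ℝ) := fun i => by
    rw [hS, Finset.mem_filter, Set.Finite.mem_toFinset]; rfl
  have h1 : (Finset.Icc 1 ⌊Z⌋₊).filter (fun L => ∃ i, Y ≤ (r i : ℝ) ∧ r i ∣ L) ⊆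
      S.biUnion (fun i => (Finset.Ioc 0 ⌊Z⌋₊).filter (fun L => r i ∣ L)) := by
    intro L hL
    rw [Finset.mem_filter, Finset.mem_Icc] at hL
    obtain ⟨⟨hL1, hL2⟩, i, hi, hd⟩ := hL
    rw [Finset.mem_biUnion]
    refine ⟨i, ?_, ?_⟩
    · rw [hSm]
      refine ⟨?_, hi⟩
      have h2 : r i ≤ L := Nat.le_of_dvd hL1 hd
      exact (Nat.cast_le.mpr (h2.trans hL2)).trans (Nat.floor_le hZ0.le)
    · rw [Finset.mem_filter, Finset.mem_Ioc]
      exact ⟨⟨hL1, hL2⟩, hd⟩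
  have h2 : (((Finset.Icc 1 ⌊Z⌋₊).filter (fun L => ∃ i, Y ≤ (r i : ℝ) ∧ r i ∣ L)).card : ℝ) ≤
      ∑ i ∈ S, Z * ((r i : ℝ))⁻¹ := by
    have h3 := (Finset.card_le_card h1).trans Finset.card_biUnion_le
    have h4 : (∑ i ∈ S, ((Finset.Ioc 0 ⌊Z⌋₊).filter (fun L => r i ∣ L)).card : ℕ) =
        ∑ i ∈ S, ⌊Z⌋₊ / r i := Finset.sum_congr rfl (fun i _ => Nat.Ioc_filter_dvd_card_eq_div _ _)
    rw [h4] at h3
    refine (Nat.cast_le.mpr h3).trans ?_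
    push_cast
    refine Finset.sum_le_sum (fun i _ => ?_)
    have h5 : (⌊Z⌋₊ / r i : ℕ) = ⌊Z / (r i : ℝ)⌋₊ := (Nat.floor_div_natCast Z (r i)).symm
    rw [h5, ← div_eq_mul_inv]
    exact Nat.floor_le (by positivity)
  refine h2.trans ?_
  rw [← Finset.mul_sum]
  have h3 := hT Y S hY (fun i hi => ((hSm i).mp hi).2)
  calc Z * ∑ i ∈ S, ((r i : ℝ))⁻¹ ≤ Z * (D * Y ^ (-δ)) := by gcongr
    _ = D * Z * Y ^ (-δ) := by ring

/-- few divisors -/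
def Few {ι : Type*} (r : ι → ℕ) : Prop :=
  ∀ ε : ℝ, 0 < ε → ∃ C : ℝ, 0 < C ∧ ∀ N : ℕ, 1 ≤ N → ({i | r i ∣ N}.ncard : ℝ) ≤ C * (N : ℝ) ^ ε

theorem thin_tuples {ι : Type*} (r : ι → ℕ) (hr : ∀ i, 1 ≤ r i) (C δ : ℝ) (hC : 0 < C)
    (hδ : 0 < δ) (hδ1 : δ ≤ 1) (h : Thin r C δ) (hF : Few r) (k : ℕ) (hk : 1 ≤ k) (ε : ℝ)
    (hε : 0 < ε) :
    ∃ C' : ℝ, 0 < C' ∧ Thin (fun f : Fin k → ι => lc r f) C' (δ / (k * (1 - δ) + δ) - ε) := by
  classical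
  obtain ⟨D, hD, hbig⟩ := big r C δ hC hδ h
  have hk0 : (0 : ℝ) < k := by exact_mod_cast hk
  have hk1 : (1 : ℝ) ≤ k := by exact_mod_cast hk
  have hden : 0 < k * (1 - δ) + δ := by
    have : 0 ≤ (k : ℝ) * (1 - δ) := mul_nonneg hk0.le (by linarith)
    linarith
  set θ : ℝ := δ / (k * (1 - δ) + δ) with hθ
  have hθ0 : 0 < θ := by positivity
  obtain ⟨E, hE, hfew⟩ := hF (ε / k) (by positivity)
  refine ⟨E ^ k * (C ^ k + D), by positivity, ?_⟩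
  intro Z hZ
  have hZ0 : 0 < Z := by linarith
  -- the set of the values
  set V : Finset ℕ := (Finset.Icc 1 ⌊Z⌋₊).filter (fun L => ∃ f : Fin k → ι, lc r f = L) with hV
  have hfinN : ∀ N : ℕ, 1 ≤ N → {i | r i ∣ N}.Finite := by
    intro N hN
    refine (h (N : ℝ) (by exact_mod_cast hN)).1.subset (fun i hi => ?_)
    have h1 : r i ≤ N := Nat.le_of_dvd hN hi
    have h2 : (r i : ℝ) ≤ (N : ℝ) := Nat.cast_le.mpr h1
    exact h2
  have hfinT : ∀ N : ℕ, 1 ≤ N → {f : Fin k → ι | lc r f ∣ N}.Finite := by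
    intro N hN
    have : {f : Fin k → ι | lc r f ∣ N} = Set.pi Set.univ (fun _ : Fin k => {i | r i ∣ N}) := by
      ext f
      simp [Set.mem_pi, lc_dvd]
    rw [this]
    exact Set.Finite.pi (fun _ => hfinN N hN)
  have hcov : {f : Fin k → ι | (lc r f : ℝ) ≤ Z} ⊆ ⋃ L ∈ V, {f : Fin k → ι | lc r f ∣ L} := by
    intro f hf
    have hf' : (lc r f : ℝ) ≤ Z := hf
    rw [Set.mem_iUnion₂]
    refine ⟨lc r f, ?_, dvd_refl _⟩
    rw [hV, Finset.mem_filter, Finset.mem_Icc]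
    exact ⟨⟨lc_pos r hr f, Nat.le_floor hf'⟩, f, rfl⟩
  have hVpos : ∀ L ∈ V, 1 ≤ L ∧ (L : ℝ) ≤ Z := by
    intro L hL
    rw [hV, Finset.mem_filter, Finset.mem_Icc] at hL
    exact ⟨hL.1.1, (Nat.cast_le.mpr hL.1.2).trans (Nat.floor_le hZ0.le)⟩
  have hfinU : (⋃ L ∈ V, {f : Fin k → ι | lc r f ∣ L}).Finite :=
    Set.Finite.biUnion V.finite_toSet (fun L hL => hfinT L (hVpos L hL).1)
  refine ⟨hfinU.subset hcov, ?_⟩
  -- the number of the values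
  have hVc : (V.card : ℝ) ≤ (C ^ k + D) * Z ^ (1 - θ) := by
    set Y : ℝ := Z ^ (θ / δ) with hY
    have hY0 : 0 < Y := Real.rpow_pos_of_pos hZ0 _
    have hY1 : 1 ≤ Y := Real.one_le_rpow hZ (by positivity)
    obtain ⟨hf1, hf2⟩ := h Y hY1
    have hpi : {f : Fin k → ι | ∀ i, (r (f i) : ℝ) ≤ Y} =
        Set.pi Set.univ (fun _ : Fin k => {i | (r i : ℝ) ≤ Y}) := by
      ext f
      simp [Set.mem_pi]
    have hfinY : {f : Fin k → ι | ∀ i, (r (f i) : ℝ) ≤ Y}.Finite := by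
      rw [hpi]
      exact Set.Finite.pi (fun _ => hf1)
    have hcY : {f : Fin k → ι | ∀ i, (r (f i) : ℝ) ≤ Y}.ncard = {i | (r i : ℝ) ≤ Y}.ncard ^ k := by
      rw [hpi, ← Nat.card_coe_set_eq, ← Nat.card_coe_set_eq]
      rw [Nat.card_congr (Equiv.Set.univPi (fun _ : Fin k => {i | (r i : ℝ) ≤ Y}))]
      rw [Nat.card_pi]
      simp
    have hsub : V ⊆ hfinY.toFinset.image (fun f => lc r f) ∪
        (Finset.Icc 1 ⌊Z⌋₊).filter (fun L => ∃ i, Y ≤ (r i : ℝ) ∧ r i ∣ L) := by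
      intro L hL
      rw [hV, Finset.mem_filter] at hL
      obtain ⟨hL1, f, hf⟩ := hL
      rw [Finset.mem_union]
      by_cases hy : ∃ i, Y ≤ (r (f i) : ℝ)
      · right
        obtain ⟨i, hi⟩ := hy
        rw [Finset.mem_filter]
        refine ⟨hL1, f i, hi, ?_⟩
        rw [← hf]
        exact (lc_dvd r f _).mp dvd_rfl i
      · left
        push Not at hy
        rw [Finset.mem_image]
        refine ⟨f, ?_, hf⟩
        rw [Set.Finite.mem_toFinset]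
        exact fun i => (hy i).le
    have h1 : (V.card : ℝ) ≤ (C * Y ^ (1 - δ)) ^ k + D * Z * Y ^ (-δ) := by
      have h2 := (Finset.card_le_card hsub).trans (Finset.card_union_le _ _)
      have h3 : (((hfinY.toFinset.image (fun f => lc r f))).card : ℝ) ≤ (C * Y ^ (1 - δ)) ^ k := by
        have h4 : (hfinY.toFinset.image (fun f => lc r f)).card ≤ {i | (r i : ℝ) ≤ Y}.ncard ^ k := by
          refine Finset.card_image_le.trans ?_
          rw [← Set.ncard_eq_toFinset_card _ hfinY, hcY]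
        calc (((hfinY.toFinset.image (fun f => lc r f))).card : ℝ)
            ≤ (({i | (r i : ℝ) ≤ Y}.ncard ^ k : ℕ) : ℝ) := Nat.cast_le.mpr h4
          _ = ({i | (r i : ℝ) ≤ Y}.ncard : ℝ) ^ k := by push_cast; rfl
          _ ≤ _ := pow_le_pow_left₀ (by positivity) hf2 k
      have h4 := hbig Y Z hY1 hZ
      have h5 : (V.card : ℝ) ≤ (((hfinY.toFinset.image (fun f => lc r f))).card : ℝ) +
          (((Finset.Icc 1 ⌊Z⌋₊).filter (fun L => ∃ i, Y ≤ (r i : ℝ) ∧ r i ∣ L)).card : ℝ) := by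
        exact_mod_cast h2
      linarith
    have h2 : Z * Y ^ (-δ) = Z ^ (1 - θ) := by
      rw [hY, ← Real.rpow_mul hZ0.le]
      nth_rewrite 1 [← Real.rpow_one Z]
      rw [← Real.rpow_add hZ0]
      congr 1
      field_simp
      ring
    have h3 : (C * Y ^ (1 - δ)) ^ k = C ^ k * Z ^ (1 - θ) := by
      rw [mul_pow, hY, ← Real.rpow_natCast ((Z ^ (θ / δ)) ^ (1 - δ)), ← Real.rpow_mul hZ0.le,
        ← Real.rpow_mul hZ0.le]
      congr 2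
      rw [hθ]
      field_simp
      ring
    calc (V.card : ℝ) ≤ (C * Y ^ (1 - δ)) ^ k + D * Z * Y ^ (-δ) := h1
      _ = C ^ k * Z ^ (1 - θ) + D * (Z * Y ^ (-δ)) := by rw [h3]; ring
      _ = _ := by rw [h2]; ring
  -- the number of the tuples
  have hone : ∀ L ∈ V, ({f : Fin k → ι | lc r f ∣ L}.ncard : ℝ) ≤ E ^ k * Z ^ ε := by
    intro L hL
    obtain ⟨hL1, hL2⟩ := hVpos L hL
    rw [ncard_dvd_pow]
    push_cast
    have h1 : ({i | r i ∣ L}.ncard : ℝ) ≤ E * Z ^ (ε / k) := by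
      refine (hfew L hL1).trans ?_
      have : (L : ℝ) ^ (ε / k) ≤ Z ^ (ε / k) :=
        Real.rpow_le_rpow (by positivity) hL2 (by positivity)
      exact mul_le_mul_of_nonneg_left this hE.le
    calc ({i | r i ∣ L}.ncard : ℝ) ^ k ≤ (E * Z ^ (ε / k)) ^ k :=
          pow_le_pow_left₀ (by positivity) h1 k
      _ = E ^ k * Z ^ ε := by
          rw [mul_pow, ← Real.rpow_natCast (Z ^ (ε / k)), ← Real.rpow_mul hZ0.le]
          congr 2
          field_simp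
  have hcardU : ((⋃ L ∈ V, {f : Fin k → ι | lc r f ∣ L}).ncard : ℝ) ≤
      (V.card : ℝ) * (E ^ k * Z ^ ε) := by
    have h1 : (⋃ L ∈ V, {f : Fin k → ι | lc r f ∣ L}).ncard ≤
        ∑ L ∈ V, {f : Fin k → ι | lc r f ∣ L}.ncard := by
      exact Finset.set_ncard_biUnion_le V _
    calc ((⋃ L ∈ V, {f : Fin k → ι | lc r f ∣ L}).ncard : ℝ)
        ≤ ((∑ L ∈ V, {f : Fin k → ι | lc r f ∣ L}.ncard : ℕ) : ℝ) := Nat.cast_le.mpr h1
      _ = ∑ L ∈ V, ({f : Fin k → ι | lc r f ∣ L}.ncard : ℝ) := by push_cast; rfl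
      _ ≤ ∑ L ∈ V, (E ^ k * Z ^ ε) := Finset.sum_le_sum hone
      _ = _ := by simp
  calc ({f : Fin k → ι | (lc r f : ℝ) ≤ Z}.ncard : ℝ)
      ≤ ((⋃ L ∈ V, {f : Fin k → ι | lc r f ∣ L}).ncard : ℝ) :=
        Nat.cast_le.mpr (Set.ncard_le_ncard hcov hfinU)
    _ ≤ (V.card : ℝ) * (E ^ k * Z ^ ε) := hcardU
    _ ≤ (C ^ k + D) * Z ^ (1 - θ) * (E ^ k * Z ^ ε) := by gcongr
    _ = E ^ k * (C ^ k + D) * (Z ^ (1 - θ) * Z ^ ε) := by ring
    _ = E ^ k * (C ^ k + D) * Z ^ (1 - (θ - ε)) := by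
        rw [← Real.rpow_add hZ0]
        congr 2
        ring

/-- mean values of the powers of the number of divisors -/
theorem moments {ι : Type*} (r : ι → ℕ) (hr : ∀ i, 1 ≤ r i) (C δ : ℝ) (hC : 0 < C)
    (hδ : 0 < δ) (hδ1 : δ ≤ 1) (h : Thin r C δ) (hF : Few r) (k : ℕ) (hk : 1 ≤ k) (ε : ℝ)
    (hε : 0 < ε) :
    Summable (fun f : Fin k → ι => ((lc r f : ℕ) : ℝ)⁻¹) ∧ ∃ D : ℝ, 0 < D ∧
      ∀ X : ℝ, 1 ≤ X →
      |∑ N ∈ Finset.Icc 1 ⌊X⌋₊, (({i | r i ∣ N}.ncard : ℝ)) ^ k -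
        X * ∑' f : Fin k → ι, ((lc r f : ℕ) : ℝ)⁻¹| ≤
          D * X ^ (1 - (δ / (k * (1 - δ) + δ) - ε)) := by
  have hk0 : (0 : ℝ) < k := by exact_mod_cast hk
  have hden : 0 < k * (1 - δ) + δ := by
    have : 0 ≤ (k : ℝ) * (1 - δ) := mul_nonneg hk0.le (by linarith)
    linarith
  set θ : ℝ := δ / (k * (1 - δ) + δ) with hθ
  have hθ0 : 0 < θ := by positivity
  set e : ℝ := min ε (θ / 2) with he
  have he0 : 0 < e := lt_min hε (by positivity)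
  have he1 : e ≤ ε := min_le_left _ _
  have he2 : e ≤ θ / 2 := min_le_right _ _
  obtain ⟨C', hC', hT⟩ := thin_tuples r hr C δ hC hδ hδ1 h hF k hk e he0
  rw [← hθ] at hT
  obtain ⟨h1, D, hD, h2⟩ := mean (fun f : Fin k → ι => lc r f) C' (θ - e) hC'
    (by linarith) (fun f => lc_pos r hr f) hT
  refine ⟨h1, D, hD, fun X hX => ?_⟩
  have h3 := h2 X hX
  have h4 : ∀ N : ℕ, (({f : Fin k → ι | lc r f ∣ N}.ncard : ℕ) : ℝ) =
      ({i | r i ∣ N}.ncard : ℝ) ^ k := by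
    intro N
    rw [ncard_dvd_pow]
    push_cast
    rfl
  simp only [h4] at h3
  refine h3.trans (mul_le_mul_of_nonneg_left ?_ hD.le)
  exact Real.rpow_le_rpow_of_exponent_le hX (by linarith)

end Pool.Agent.H38.UE
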