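import Pool.Agent.H22.Cubic.Z1

/-!
# The zeta function on the real segment to the left of 1 by a truncated sum
-/

set_option autoImplicit false

open Finset Filter Topology

namespace Pool.Agent.H38.UE

open Pool.Agent.H22.Cubic

theorem zeta_real (a : ℝ) (ha : 1 / 2 ≤ a) (ha1 : a < 1) (X : ℕ) (hX : 1 ≤ X) :
    ∑' j : ℕ, G (X + j) (a : ℂ) = riemannZeta (a : ℂ) -
      ∑ n ∈ range X, 1 / ((n : ℂ) + 1) ^ (a : ℂ) -
      ((X : ℝ) : ℂ) ^ (-(a : ℂ) + 1) / ((a : ℂ) - 1) := by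
  set s : ℝ → ℂ := fun t => (a : ℂ) + (t : ℂ) * Complex.I with hs
  have hsre : ∀ t, (s t).re = a := by intro t; simp [hs]
  have hsim : ∀ t, (s t).im = t := by intro t; simp [hs]
  have hs0 : s 0 = (a : ℂ) := by simp [hs]
  have hcont : ContinuousAt s 0 := by
    simp only [hs]
    fun_prop
  have ht : Tendsto s (𝓝[>] 0) (𝓝 (a : ℂ)) := by
    rw [← hs0]
    exact hcont.tendsto.mono_left nhdsWithin_le_nhds
  have ha0 : (a : ℂ) ≠ 0 := by
    have : a ≠ 0 := by linarith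
    exact_mod_cast this
  have hane : (a : ℂ) ≠ 1 := by
    have : a ≠ 1 := ha1.ne
    exact_mod_cast this
  have hX0 : ((X : ℝ) : ℂ) ≠ 0 := by
    have : X ≠ 0 := by omega
    exact_mod_cast this
  have h1' : -(a : ℂ) + 1 ≠ 0 := by
    intro h
    apply hane
    linear_combination -h
  -- the left side
  have hL : Tendsto (fun t : ℝ => ∑' j : ℕ, G (X + j) (s t)) (𝓝[>] 0)
      (𝓝 (∑' j : ℕ, G (X + j) (a : ℂ))) := by
    refine tendsto_tsum_of_dominated_convergence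
      (bound := fun j : ℕ => 2 * ((X + j : ℕ) : ℝ) ^ (-a - 1)) ?_ ?_ ?_
    · apply Summable.mul_left
      have := (summable_nat_add_iff X).mpr (Real.summable_nat_rpow.mpr
        (show -a - 1 < -1 by linarith))
      refine this.congr fun j => ?_
      rw [add_comm X j]
    · intro j
      refine Tendsto.comp (?_ : Tendsto (G (X + j)) (𝓝 (a : ℂ)) (𝓝 (G (X + j) (a : ℂ)))) ht
      have hn' : (((X + j : ℕ) : ℝ) : ℂ) ≠ 0 := by
        have : X + j ≠ 0 := by omega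
        exact_mod_cast this
      have hn1 : ((((X + j : ℕ) : ℝ) + 1 : ℝ) : ℂ) ≠ 0 := by
        have : (((X + j : ℕ) : ℝ) + 1 : ℝ) ≠ 0 := by positivity
        exact_mod_cast this
      have hd : DifferentiableAt ℂ (G (X + j)) (a : ℂ) := by
        unfold G
        refine DifferentiableAt.sub ?_ (DifferentiableAt.sub ?_ ?_)
        · exact (differentiable_id.neg (a : ℂ)).const_cpow (Or.inl hn1)
        · exact ((differentiable_id.neg.add_const 1 (a : ℂ)).const_cpow (Or.inl hn1)).div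
            (differentiable_id.neg.add_const 1 (a : ℂ)) h1'
        · exact ((differentiable_id.neg.add_const 1 (a : ℂ)).const_cpow (Or.inl hn')).div
            (differentiable_id.neg.add_const 1 (a : ℂ)) h1'
      exact hd.continuousAt
    · have h1 : ∀ᶠ t in 𝓝[>] (0 : ℝ), t ∈ Set.Ioo (0 : ℝ) 1 := Ioo_mem_nhdsGT one_pos
      filter_upwards [h1] with t ht j
      have hne0 : s t ≠ 0 := by
        intro h
        have := hsim t
        rw [h] at this
        simp at this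
        linarith [ht.1]
      have hne1 : s t ≠ 1 := by
        intro h
        have := hsim t
        rw [h] at this
        simp at this
        linarith [ht.1]
      have h2 := G_bound (n := X + j) (by omega) (s := s t) (by rw [hsre]; linarith) hne0 hne1
      rw [hsre] at h2
      refine h2.trans (mul_le_mul_of_nonneg_right ?_ (by positivity))
      have h3 := Complex.norm_le_abs_re_add_abs_im (s t)
      rw [hsre, hsim, abs_of_pos (by linarith : (0 : ℝ) < a), abs_of_pos ht.1] at h3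
      linarith [ht.2]
  -- the right side
  have hR : Tendsto (fun t : ℝ => riemannZeta (s t) -
      ∑ n ∈ range X, 1 / ((n : ℂ) + 1) ^ (s t) - ((X : ℝ) : ℂ) ^ (-(s t) + 1) / (s t - 1))
      (𝓝[>] 0) (𝓝 (riemannZeta (a : ℂ) - ∑ n ∈ range X, 1 / ((n : ℂ) + 1) ^ (a : ℂ) -
      ((X : ℝ) : ℂ) ^ (-(a : ℂ) + 1) / ((a : ℂ) - 1))) := by
    refine Tendsto.comp (g := fun z : ℂ => riemannZeta z -
      ∑ n ∈ range X, 1 / ((n : ℂ) + 1) ^ z - ((X : ℝ) : ℂ) ^ (-z + 1) / (z - 1))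
      (y := 𝓝 (a : ℂ)) ?_ ht
    have hd : DifferentiableAt ℂ (fun z : ℂ => riemannZeta z -
      ∑ n ∈ range X, 1 / ((n : ℂ) + 1) ^ z - ((X : ℝ) : ℂ) ^ (-z + 1) / (z - 1)) (a : ℂ) := by
      refine DifferentiableAt.sub (DifferentiableAt.sub (differentiableAt_riemannZeta hane) ?_) ?_
      · apply DifferentiableAt.fun_sum
        intro n _
        have hn : ((n : ℂ) + 1) ≠ 0 := Nat.cast_add_one_ne_zero n
        refine DifferentiableAt.div (differentiableAt_const _)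
          (differentiableAt_id.const_cpow (Or.inl hn)) ?_
        exact (Complex.cpow_ne_zero_iff.mpr (Or.inl hn))
      · exact ((differentiable_id.neg.add_const 1 (a : ℂ)).const_cpow (Or.inl hX0)).div
          (differentiable_id.sub_const 1 (a : ℂ)) (sub_ne_zero.mpr hane)
    exact hd.continuousAt
  refine tendsto_nhds_unique hL (hR.congr' ?_)
  have h1 : ∀ᶠ t in 𝓝[>] (0 : ℝ), t ∈ Set.Ioo (0 : ℝ) 1 := Ioo_mem_nhdsGT one_pos
  filter_upwards [h1] with t ht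
  exact (tsum_G_eq' X hX (s := s t) (by rw [hsre]; linarith) (by rw [hsre]; linarith)
    (by rw [hsim]; exact ht.1)).symm

theorem zeta_approx (a : ℝ) (ha : 1 / 2 ≤ a) (ha1 : a < 1) (M : ℕ) (hM : 1 ≤ M) :
    |∑ m ∈ Finset.Icc 1 M, (m : ℝ) ^ (-a) - (M : ℝ) ^ (1 - a) / (1 - a) -
      (riemannZeta (a : ℂ)).re| ≤ 6 * (M : ℝ) ^ (-a) := by
  have key := zeta_real a ha ha1 M hM
  have hM0 : (0 : ℝ) < M := by exact_mod_cast hM
  have hM1 : (1 : ℝ) ≤ M := by exact_mod_cast hM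
  have hane : (a : ℂ) ≠ 1 := by
    have : a ≠ 1 := ha1.ne
    exact_mod_cast this
  have ha0 : (a : ℂ) ≠ 0 := by
    have : a ≠ 0 := by linarith
    exact_mod_cast this
  have e1 : ∑ n ∈ range M, 1 / ((n : ℂ) + 1) ^ (a : ℂ) =
      ((∑ m ∈ Finset.Icc 1 M, (m : ℝ) ^ (-a) : ℝ) : ℂ) := by
    have e2 : ∑ m ∈ Finset.Icc 1 M, (m : ℝ) ^ (-a) = ∑ n ∈ range M, ((n + 1 : ℕ) : ℝ) ^ (-a) := by
      rw [Finset.range_eq_Ico, Finset.sum_Ico_add' (fun n : ℕ => (n : ℝ) ^ (-a)) 0 M 1]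
      rfl
    rw [e2]
    push_cast
    refine Finset.sum_congr rfl (fun n _ => ?_)
    have h1 : (0 : ℝ) ≤ (n : ℝ) + 1 := by positivity
    rw [one_div, ← Complex.cpow_neg, Complex.ofReal_cpow h1]
    push_cast
    rfl
  have e3 : ((M : ℝ) : ℂ) ^ (-(a : ℂ) + 1) / ((a : ℂ) - 1) =
      ((-((M : ℝ) ^ (1 - a) / (1 - a)) : ℝ) : ℂ) := by
    have h1 : (-(a : ℂ) + 1) = ((1 - a : ℝ) : ℂ) := by push_cast; ring
    rw [h1, ← Complex.ofReal_cpow hM0.le]
    have h2 : ((a : ℂ) - 1) = ((a - 1 : ℝ) : ℂ) := by push_cast; ring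
    rw [h2, ← Complex.ofReal_div]
    congr 1
    have h3 : a - 1 = -(1 - a) := by ring
    rw [h3, div_neg]
  rw [e1, e3] at key
  have e4 : (∑' j : ℕ, G (M + j) (a : ℂ)).re = (riemannZeta (a : ℂ)).re -
      ∑ m ∈ Finset.Icc 1 M, (m : ℝ) ^ (-a) + (M : ℝ) ^ (1 - a) / (1 - a) := by
    rw [key]
    simp only [Complex.sub_re, Complex.ofReal_re]
    ring
  have hb : ∀ j : ℕ, ‖G (M + j) (a : ℂ)‖ ≤ (M : ℝ) ^ (1 / 2 - a) *
      ((M + j : ℕ) : ℝ) ^ (-(3 / 2) : ℝ) := by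
    intro j
    have h1 := G_bound (n := M + j) (by omega) (s := (a : ℂ)) (by simp; linarith) ha0 hane
    have hMj : (M : ℝ) ≤ ((M + j : ℕ) : ℝ) := by push_cast; linarith [(Nat.cast_nonneg j : (0 : ℝ) ≤ j)]
    have hMj0 : 0 < ((M + j : ℕ) : ℝ) := by linarith
    have h2 : ‖(a : ℂ)‖ ≤ 1 := by
      rw [Complex.norm_real, Real.norm_eq_abs, abs_of_pos (by linarith)]
      exact ha1.le
    have h3 : ((M + j : ℕ) : ℝ) ^ (-(a : ℂ).re - 1) =
        ((M + j : ℕ) : ℝ) ^ (1 / 2 - a) * ((M + j : ℕ) : ℝ) ^ (-(3 / 2) : ℝ) := by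
      rw [← Real.rpow_add hMj0]
      congr 1
      simp
      ring
    have h4 : ((M + j : ℕ) : ℝ) ^ (1 / 2 - a) ≤ (M : ℝ) ^ (1 / 2 - a) :=
      Real.rpow_le_rpow_of_nonpos hM0 hMj (by linarith)
    calc ‖G (M + j) (a : ℂ)‖ ≤ ‖(a : ℂ)‖ * ((M + j : ℕ) : ℝ) ^ (-(a : ℂ).re - 1) := h1
      _ ≤ 1 * ((M + j : ℕ) : ℝ) ^ (-(a : ℂ).re - 1) :=
          mul_le_mul_of_nonneg_right h2 (by positivity)
      _ = ((M + j : ℕ) : ℝ) ^ (1 / 2 - a) * ((M + j : ℕ) : ℝ) ^ (-(3 / 2) : ℝ) := by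
          rw [one_mul, h3]
      _ ≤ _ := mul_le_mul_of_nonneg_right h4 (by positivity)
  have hpart : ∀ m : ℕ, ∑ j ∈ range m, ‖G (M + j) (a : ℂ)‖ ≤
      (M : ℝ) ^ (1 / 2 - a) * (6 / Real.sqrt M) := by
    intro m
    calc ∑ j ∈ range m, ‖G (M + j) (a : ℂ)‖ ≤
        ∑ j ∈ range m, (M : ℝ) ^ (1 / 2 - a) * ((M + j : ℕ) : ℝ) ^ (-(3 / 2) : ℝ) :=
          Finset.sum_le_sum fun j _ => hb j
      _ = (M : ℝ) ^ (1 / 2 - a) * ∑ j ∈ range m, ((M + j : ℕ) : ℝ) ^ (-(3 / 2) : ℝ) := by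
          rw [Finset.mul_sum]
      _ ≤ _ := mul_le_mul_of_nonneg_left (sum_rpow_le M hM m) (by positivity)
  have hsumm : Summable (fun j : ℕ => ‖G (M + j) (a : ℂ)‖) :=
    summable_of_sum_range_le (fun j => norm_nonneg _) hpart
  have h5 : |(∑' j : ℕ, G (M + j) (a : ℂ)).re| ≤ 6 * (M : ℝ) ^ (-a) := by
    calc |(∑' j : ℕ, G (M + j) (a : ℂ)).re| ≤ ‖∑' j : ℕ, G (M + j) (a : ℂ)‖ :=
          Complex.abs_re_le_norm _
      _ ≤ ∑' j : ℕ, ‖G (M + j) (a : ℂ)‖ := norm_tsum_le_tsum_norm hsumm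
      _ ≤ (M : ℝ) ^ (1 / 2 - a) * (6 / Real.sqrt M) :=
          Real.tsum_le_of_sum_range_le (fun j => norm_nonneg _) hpart
      _ = 6 * (M : ℝ) ^ (-a) := by
          have e5 : (M : ℝ) ^ (1 / 2 - a) * (6 / Real.sqrt M) =
              6 * ((M : ℝ) ^ (1 / 2 - a) * (Real.sqrt M)⁻¹) := by ring
          rw [e5, Real.sqrt_eq_rpow, ← Real.rpow_neg hM0.le, ← Real.rpow_add hM0]
          congr 2
          ring
  rw [e4] at h5
  rw [← abs_neg]
  refine le_trans (le_of_eq ?_) h5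
  congr 1
  ring

end Pool.Agent.H38.UE
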